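import Pool.Agent.Lib.MP_5e7226_co.MA.Main

/-!
Elementary tools: apportionment of a nonnegative vector (Jefferson's rule), the bound
`C(m+q,q) x^q (1-x)^(m+1) ≤ 1`, and large asymmetry in terms of nonnegative affine functions.
-/

set_option autoImplicit false

open Set Module

namespace Pool.Agent.Lib.MP_5e7226_co.MB

open Pool.Agent.Lib.MP_5e7226_co.MA

/-- Jefferson's rule: every nonnegative vector `b ≠ 0` is `v k` up to `v`, with `∑ k = q`. -/
theorem apportion {ι : Type*} [Fintype ι] [DecidableEq ι] (b : ι → ℝ) (hb : ∀ j, 0 ≤ b j)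
    (hb1 : ∃ j, 0 < b j) (q : ℕ) :
    ∃ (k : ι → ℕ) (v : ℝ), 0 < v ∧ ∑ j, k j = q ∧ (∀ j, v * k j ≤ b j) ∧
      ∀ j, b j ≤ v * (k j + 1) := by
  obtain ⟨j₁, hj₁⟩ := hb1
  have hne : (Finset.univ : Finset ι).Nonempty := ⟨j₁, Finset.mem_univ _⟩
  induction q with
  | zero =>
    obtain ⟨j₀, -, hmax⟩ := Finset.exists_max_image Finset.univ b hne
    refine ⟨fun _ => 0, b j₀, lt_of_lt_of_le hj₁ (hmax j₁ (Finset.mem_univ _)), by simp,
      fun j => by simpa using hb j, fun j => by simpa using hmax j (Finset.mem_univ _)⟩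
  | succ q ih =>
    obtain ⟨k, v, hv, hk, h1, h2⟩ := ih
    obtain ⟨j₀, -, hmax⟩ := Finset.exists_max_image Finset.univ (fun j => b j / (k j + 1)) hne
    have hpos : ∀ j, (0 : ℝ) < k j + 1 := fun j => by positivity
    have hv' : b j₀ / (k j₀ + 1) ≤ v := by
      rw [div_le_iff₀ (hpos j₀)]
      exact h2 j₀
    refine ⟨fun j => if j = j₀ then k j + 1 else k j, b j₀ / (k j₀ + 1), ?_, ?_, ?_, ?_⟩
    · refine lt_of_lt_of_le ?_ (hmax j₁ (Finset.mem_univ _))
      exact div_pos hj₁ (hpos j₁)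
    · rw [← hk, ← Finset.add_sum_erase Finset.univ _ (Finset.mem_univ j₀),
        ← Finset.add_sum_erase Finset.univ k (Finset.mem_univ j₀), if_pos rfl]
      have : ∑ x ∈ Finset.univ.erase j₀, (if x = j₀ then k x + 1 else k x) =
          ∑ x ∈ Finset.univ.erase j₀, k x :=
        Finset.sum_congr rfl fun x hx => if_neg (Finset.ne_of_mem_erase hx)
      rw [this]
      ring
    · intro j
      by_cases hj : j = j₀
      · subst hj
        show b j / (k j + 1) * ((if j = j then k j + 1 else k j : ℕ) : ℝ) ≤ b j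
        rw [if_pos rfl]
        push_cast
        rw [div_mul_cancel₀ _ (hpos j).ne']
      · simp only [if_neg hj]
        exact (mul_le_mul_of_nonneg_right hv' (Nat.cast_nonneg _)).trans (h1 j)
    · intro j
      have h3 : b j ≤ b j₀ / (k j₀ + 1) * (k j + 1) := by
        have := hmax j (Finset.mem_univ _)
        rw [div_le_iff₀ (hpos j)] at this
        exact this
      refine h3.trans (mul_le_mul_of_nonneg_left ?_ (div_nonneg (hb j₀) (hpos j₀).le))
      show (k j : ℝ) + 1 ≤ ((if j = j₀ then k j + 1 else k j : ℕ) : ℝ) + 1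
      split_ifs
      · push_cast
        linarith
      · exact le_rfl

theorem choose_bound (m q : ℕ) {x : ℝ} (hx0 : 0 ≤ x) (hx1 : x ≤ 1) :
    ((m + q).choose q : ℝ) * x ^ q * (1 - x) ^ (m + 1) ≤ 1 := by
  have h1x : 0 ≤ 1 - x := by linarith
  induction m generalizing q with
  | zero =>
    have h1 : x ^ q ≤ 1 := pow_le_one₀ hx0 hx1
    have h2 : (0 + q).choose q = 1 := by rw [Nat.zero_add, Nat.choose_self]
    rw [h2, Nat.cast_one, one_mul, zero_add, pow_one]
    have h3 : 0 ≤ x ^ q := pow_nonneg hx0 q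
    nlinarith
  | succ m ihm =>
    induction q with
    | zero =>
      rw [Nat.choose_zero_right, Nat.cast_one, pow_zero, one_mul, one_mul]
      exact pow_le_one₀ h1x (by linarith)
    | succ q ihq =>
      have h1 := ihm (q + 1)
      have e1 : (m + 1 + (q + 1)).choose (q + 1) =
          (m + (q + 1)).choose (q + 1) + (m + 1 + q).choose q := by
        have : m + 1 + (q + 1) = (m + q + 1) + 1 := by ring
        rw [this, Nat.choose_succ_succ]
        have e2 : m + (q + 1) = m + q + 1 := by ring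
        have e3 : m + 1 + q = m + q + 1 := by ring
        rw [e2, e3]
        ring
      have e4 : (((m + 1 + (q + 1)).choose (q + 1) : ℕ) : ℝ) * x ^ (q + 1) *
          (1 - x) ^ (m + 1 + 1) =
          (1 - x) * (((m + (q + 1)).choose (q + 1) : ℝ) * x ^ (q + 1) * (1 - x) ^ (m + 1)) +
          x * (((m + 1 + q).choose q : ℝ) * x ^ q * (1 - x) ^ (m + 1 + 1)) := by
        rw [e1]
        push_cast
        ring
      rw [e4]
      have h5 := mul_le_mul_of_nonneg_left h1 h1x
      have h6 := mul_le_mul_of_nonneg_left ihq hx0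
      linarith

variable {E : Type*} [NormedAddCommGroup E] [NormedSpace ℝ E]

/-- Helly's theorem for the homothets. -/
theorem exists_helly [FiniteDimensional ℝ E] {K : Set E} (hK : Convex ℝ K) (hKc : IsCompact K)
    {d : ℕ} (hd : finrank ℝ E = d) {β : ℝ} (hemp : ∀ z, ∃ u ∈ K, z ∉ Ku K β u) :
    ∃ u : Fin (d + 1) → E, (∀ j, u j ∈ K) ∧ ∀ z, ∃ j, z ∉ Ku K β (u j) := by
  classical
  obtain ⟨I, hI, hIe⟩ : ∃ I : Finset K, I.card ≤ d + 1 ∧
      ¬ (⋂ i ∈ I, Ku K β (i : E)).Nonempty := by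
    by_contra hcon
    push Not at hcon
    have h := Convex.helly_theorem_compact' (𝕜 := ℝ) (F := fun i : K => Ku K β (i : E))
      (fun i => Ku_convex hK β _) (fun i => Ku_compact hKc β _) (by rw [hd]; exact hcon)
    obtain ⟨z, hz⟩ := h
    obtain ⟨u, hu, hzu⟩ := hemp z
    exact hzu (mem_iInter.1 hz ⟨u, hu⟩)
  have hIn : I.Nonempty := by
    rw [Finset.nonempty_iff_ne_empty]
    rintro rfl
    exact hIe (by simp)
  obtain ⟨g, hg⟩ : ∃ g : Fin (d + 1) → I, Function.Surjective g := by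
    have : Nonempty I := hIn.to_subtype
    have h1 : Fintype.card I ≤ Fintype.card (Fin (d + 1)) := by
      rw [Fintype.card_coe, Fintype.card_fin]
      exact hI
    obtain ⟨e⟩ := Function.Embedding.nonempty_of_card_le h1
    exact ⟨Function.invFun e, Function.invFun_surjective e.injective⟩
  refine ⟨fun j => ((g j : K) : E), fun j => (g j : K).2, fun z => ?_⟩
  by_contra hcon
  push Not at hcon
  refine hIe ⟨z, ?_⟩
  rw [mem_iInter₂]
  intro i hi
  obtain ⟨j, hj⟩ := hg ⟨i, hi⟩
  have h1 := hcon j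
  rw [hj] at h1
  exact h1

/-- Large asymmetry in terms of nonnegative affine functions `f j + b j` with sum `1`. -/
theorem exists_functions [FiniteDimensional ℝ E] {K : Set E} (hK : Convex ℝ K)
    (hKc : IsCompact K) {d : ℕ} (hd : finrank ℝ E = d) {σ : ℝ} (hσ : 0 < σ) (h : ¬ AsymLE K σ) :
    ∃ (u : Fin (d + 1) → E) (f : Fin (d + 1) → (E →L[ℝ] ℝ)) (b : Fin (d + 1) → ℝ),
      (∀ j, u j ∈ K) ∧ (∀ j, ∀ x ∈ K, 0 ≤ f j x + b j) ∧ (∀ x, ∑ j, (f j x + b j) = 1) ∧
      σ + 1 < ∑ j, (f j (u j) + b j) := by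
  classical
  obtain ⟨u, hu, hemp⟩ := exists_helly hK hKc hd (empty_of_asym hσ h)
  obtain ⟨β, hβ⟩ : ∃ β : ℝ, β = 1 / (σ + 1) := ⟨_, rfl⟩
  rw [← hβ] at hemp
  have hβ0 : 0 < β := by rw [hβ]; positivity
  have hβs : β * (σ + 1) = 1 := by rw [hβ]; field_simp
  have hβ1 : β < 1 := by nlinarith
  have hKne : K.Nonempty := ⟨u 0, hu 0⟩
  -- separation of the product from the diagonal
  obtain ⟨A, hA⟩ : ∃ A : Set (Fin (d + 1) → E), A = Set.univ.pi fun j => Ku K β (u j) := ⟨_, rfl⟩
  have hAconv : Convex ℝ A := by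
    rw [hA]
    exact convex_pi fun j _ => Ku_convex hK β _
  have hAcomp : IsCompact A := by
    rw [hA]
    exact isCompact_univ_pi fun j => Ku_compact hKc β _
  obtain ⟨D, hD⟩ : ∃ D : Submodule ℝ (Fin (d + 1) → E),
      D = LinearMap.range (LinearMap.pi fun _ => (LinearMap.id : E →ₗ[ℝ] E)) := ⟨_, rfl⟩
  have hDmem : ∀ z : E, (fun _ => z) ∈ D := fun z => by
    rw [hD]
    exact ⟨z, rfl⟩
  have hDcl : IsClosed (D : Set (Fin (d + 1) → E)) := Submodule.closed_of_finiteDimensional D
  have hdisj : Disjoint A (D : Set (Fin (d + 1) → E)) := by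
    rw [disjoint_left]
    intro x hx hx'
    rw [SetLike.mem_coe, hD] at hx'
    obtain ⟨z, rfl⟩ := hx'
    obtain ⟨j, hj⟩ := hemp z
    rw [hA] at hx
    exact hj (hx j (Set.mem_univ j))
  obtain ⟨F, s, t, hF1, hst, hF2⟩ := geometric_hahn_banach_compact_closed hAconv hAcomp
    D.convex hDcl hdisj
  have ht0 : t < 0 := by
    have := hF2 0 D.zero_mem
    rwa [map_zero] at this
  obtain ⟨f, hf⟩ : ∃ f : Fin (d + 1) → (E →L[ℝ] ℝ), ∀ j x, f j x = F (Pi.single j x) :=
    ⟨fun j => F.comp (ContinuousLinearMap.single ℝ (fun _ => E) j), fun j x => rfl⟩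
  have hFsum : ∀ x : Fin (d + 1) → E, F x = ∑ j, f j (x j) := by
    intro x
    conv_lhs => rw [← Finset.univ_sum_single x]
    rw [map_sum]
    simp only [hf]
  have hdiag : ∀ z : E, ∑ j, f j z = 0 := by
    intro z
    by_contra hne
    have h1 := hF2 (fun _ => ((t - 1) / ∑ j, f j z) • z) (hDmem _)
    rw [hFsum] at h1
    simp only [map_smul, smul_eq_mul] at h1
    rw [← Finset.mul_sum, div_mul_cancel₀ _ hne] at h1
    linarith
  -- the maxima
  have hmax : ∀ j, ∃ y ∈ K, ∀ x ∈ K, f j x ≤ f j y := fun j =>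
    hKc.exists_isMaxOn hKne (f j).continuous.continuousOn
  choose y hy hymax using hmax
  have h3 : ∑ j, f j (β • u j + (1 - β) • y j) < 0 := by
    have h4 := hF1 (fun j => β • u j + (1 - β) • y j) (by
      rw [hA]
      exact fun j _ => ⟨y j, hy j, rfl⟩)
    rw [hFsum] at h4
    linarith
  obtain ⟨M, hM⟩ : ∃ M, M = ∑ j, f j (y j) := ⟨_, rfl⟩
  have h5 : β * ∑ j, f j (u j) + (1 - β) * M < 0 := by
    rw [hM, Finset.mul_sum, Finset.mul_sum, ← Finset.sum_add_distrib]
    refine lt_of_le_of_lt (le_of_eq ?_) h3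
    refine Finset.sum_congr rfl fun j _ => ?_
    rw [map_add, map_smul, map_smul, smul_eq_mul, smul_eq_mul]
  have hM0 : 0 < M := by
    obtain ⟨x₀, hx₀⟩ := hKne
    have h6 : 0 ≤ M := by
      rw [← hdiag x₀, hM]
      exact Finset.sum_le_sum fun j _ => hymax j x₀ hx₀
    rcases h6.eq_or_lt with h7 | h7
    · exfalso
      have h8 : ∀ j, ∀ x ∈ K, f j x = f j (y j) := by
        intro j x hx
        have h9 : ∑ i, (f i (y i) - f i x) = 0 := by
          rw [Finset.sum_sub_distrib, hdiag, ← hM, ← h7, sub_zero]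
        have h10 := (Finset.sum_eq_zero_iff_of_nonneg
          (fun i _ => sub_nonneg.2 (hymax i x hx))).1 h9 j (Finset.mem_univ j)
        linarith
      have h11 : ∑ j, f j (u j) = M := by
        rw [hM]
        exact Finset.sum_congr rfl fun j _ => h8 j (u j) (hu j)
      rw [h11, ← h7] at h5
      linarith
    · exact h7
  refine ⟨u, fun j => (-(1 / M)) • f j, fun j => f j (y j) / M, hu, fun j x hx => ?_, fun x => ?_,
    ?_⟩
  · have h6 := hymax j x hx
    have h7 : (-(1 / M)) • f j x + f j (y j) / M = (f j (y j) - f j x) / M := by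
      rw [smul_eq_mul]
      ring
    rw [smul_apply, h7]
    exact div_nonneg (by linarith) hM0.le
  · simp only [smul_apply, smul_eq_mul]
    rw [Finset.sum_add_distrib, ← Finset.mul_sum, hdiag, mul_zero, zero_add, ← Finset.sum_div,
      ← hM, div_self hM0.ne']
  · simp only [smul_apply, smul_eq_mul]
    rw [Finset.sum_add_distrib, ← Finset.mul_sum, ← Finset.sum_div, ← hM, div_self hM0.ne']
    have h6 : β * ∑ j, f j (u j) < -((1 - β) * M) := by linarith
    have h7 : σ * M < - ∑ j, f j (u j) := by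
      have h8 : (σ + 1) * (β * ∑ j, f j (u j)) < (σ + 1) * (-((1 - β) * M)) :=
        mul_lt_mul_of_pos_left h6 (by linarith)
      have h9 : (σ + 1) * (β * ∑ j, f j (u j)) = ∑ j, f j (u j) := by
        rw [← mul_assoc, mul_comm (σ + 1) β, hβs, one_mul]
      have h10 : (σ + 1) * (-((1 - β) * M)) = -(σ * M) := by
        have : (σ + 1) * (1 - β) = σ := by
          rw [mul_sub, mul_comm (σ + 1) β, hβs]
          ring
        calc (σ + 1) * (-((1 - β) * M)) = -(((σ + 1) * (1 - β)) * M) := by ring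
          _ = -(σ * M) := by rw [this]
      rw [h9, h10] at h8
      linarith
    have h8 : σ < -(1 / M) * ∑ j, f j (u j) := by
      have e : -(1 / M) * ∑ j, f j (u j) = (-∑ j, f j (u j)) / M := by ring
      rw [e, lt_div_iff₀ hM0]
      exact h7
    linarith

end Pool.Agent.Lib.MP_5e7226_co.MB
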