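import Pool.Agent.Lib.MP_5e7226_co.MB.A

/-!
The covering argument: coordinates with respect to nearly dual points and functions.
-/

set_option autoImplicit false

open Set Module
open scoped Pointwise

namespace Pool.Agent.Lib.MP_5e7226_co.MB

variable {E : Type*} [NormedAddCommGroup E] [NormedSpace ℝ E]

/-- the common kernel of the linear parts -/
def ker {ι : Type*} (f : ι → (E →L[ℝ] ℝ)) : Submodule ℝ E :=
  LinearMap.ker (LinearMap.pi fun i => (f i : E →ₗ[ℝ] ℝ))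

lemma mem_ker {ι : Type*} {f : ι → (E →L[ℝ] ℝ)} {w : E} : w ∈ ker f ↔ ∀ i, f i w = 0 := by
  unfold ker
  rw [LinearMap.mem_ker]
  constructor
  · intro h i
    exact congrFun h i
  · intro h
    ext i
    exact h i

section Coord

variable {ι : Type*} [Fintype ι] [DecidableEq ι] {u : ι → E} {f : ι → (E →L[ℝ] ℝ)} {b : ι → ℝ}

/-- The matrix is diagonally dominant. -/
theorem exists_matrix (hnn : ∀ i j, 0 ≤ f i (u j) + b i) (hsum : ∀ x, ∑ i, (f i x + b i) = 1)
    (hδ : ∀ j, 2 / 3 ≤ f j (u j) + b j) :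
    ∃ Φ : Matrix ι ι ℝ, (∀ i j, Φ i j = f i (u j) + b i) ∧ IsUnit Φ.det := by
  obtain ⟨Φ, hΦ⟩ : ∃ Φ : Matrix ι ι ℝ, ∀ i j, Φ i j = f i (u j) + b i := ⟨_, fun i j => rfl⟩
  have hdet : Φ.det ≠ 0 := by
    apply det_ne_zero_of_sum_col_lt_diag
    intro k
    have h1 : ∀ i, ‖Φ i k‖ = Φ i k := fun i => by
      rw [Real.norm_eq_abs, abs_of_nonneg (by rw [hΦ]; exact hnn i k)]
    simp only [h1]
    have h2 := Finset.add_sum_erase Finset.univ (fun i => Φ i k) (Finset.mem_univ k)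
    have h3 : ∑ i, Φ i k = 1 :=
      (Finset.sum_congr rfl fun i _ => hΦ i k).trans (hsum (u k))
    have h4 : 2 / 3 ≤ Φ k k := by rw [hΦ]; exact hδ k
    linarith
  exact ⟨Φ, hΦ, isUnit_iff_ne_zero.2 hdet⟩

/-- The coordinates. -/
theorem exists_coord (hnn : ∀ i j, 0 ≤ f i (u j) + b i) (hsum : ∀ x, ∑ i, (f i x + b i) = 1)
    (hδ : ∀ j, 2 / 3 ≤ f j (u j) + b j) :
    ∃ β : E → ι → ℝ, ∀ y, ∑ j, β y j = 1 ∧ (∀ i, ∑ j, (f i (u j) + b i) * β y j = f i y + b i) ∧
      y - ∑ j, β y j • u j ∈ ker f := by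
  classical
  obtain ⟨Φ, hΦ, hunit⟩ := exists_matrix hnn hsum hδ
  refine ⟨fun y => Φ⁻¹.mulVec fun i => f i y + b i, fun y => ?_⟩
  have h1 : Φ.mulVec (Φ⁻¹.mulVec fun i => f i y + b i) = fun i => f i y + b i := by
    rw [Matrix.mulVec_mulVec, Matrix.mul_nonsing_inv _ hunit, Matrix.one_mulVec]
  obtain ⟨β, hβ⟩ : ∃ β, β = Φ⁻¹.mulVec fun i => f i y + b i := ⟨_, rfl⟩
  simp only
  rw [← hβ] at h1 ⊢
  have h2 : ∀ i, ∑ j, (f i (u j) + b i) * β j = f i y + b i := by
    intro i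
    have h3 := congrFun h1 i
    simp only [Matrix.mulVec, dotProduct, hΦ] at h3
    exact h3
  have h3 : ∑ j, β j = 1 := by
    have h4 : ∑ i, ∑ j, (f i (u j) + b i) * β j = 1 := by
      simp only [h2]
      exact hsum y
    rw [Finset.sum_comm] at h4
    rw [← h4]
    refine Finset.sum_congr rfl fun j _ => ?_
    rw [← Finset.sum_mul, hsum, one_mul]
  refine ⟨h3, h2, ?_⟩
  rw [mem_ker]
  intro i
  rw [map_sub, map_sum]
  have h4 : ∑ j, f i (β j • u j) = ∑ j, (f i (u j) + b i) * β j - b i * ∑ j, β j := by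
    rw [Finset.mul_sum, ← Finset.sum_sub_distrib]
    refine Finset.sum_congr rfl fun j _ => ?_
    rw [map_smul, smul_eq_mul]
    ring
  rw [h4, h2, h3]
  ring

/-- The dimension of the kernel. -/
theorem finrank_ker_le [FiniteDimensional ℝ E] [Nonempty ι]
    (hnn : ∀ i j, 0 ≤ f i (u j) + b i) (hsum : ∀ x, ∑ i, (f i x + b i) = 1)
    (hδ : ∀ j, 2 / 3 ≤ f j (u j) + b j) :
    finrank ℝ (ker f) + Fintype.card ι ≤ finrank ℝ E + 1 := by
  classical
  obtain ⟨Φ, hΦ, hunit⟩ := exists_matrix hnn hsum hδ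
  obtain ⟨T, hT⟩ : ∃ T : (ι → ℝ) →ₗ[ℝ] (ι → ℝ), ∀ c i, T c i = ∑ j, (f i (u j) + b i) * c j :=
    ⟨Matrix.mulVecLin Φ, fun c i => by
      rw [Matrix.mulVecLin_apply]
      simp only [Matrix.mulVec, dotProduct, hΦ]⟩
  have hTinj : Function.Injective T := by
    have h1 : ∀ c, T c = Φ.mulVec c := fun c => by
      ext i
      rw [hT]
      simp only [Matrix.mulVec, dotProduct, hΦ]
    intro c c' hcc
    rw [h1, h1] at hcc
    have h2 : Φ⁻¹.mulVec (Φ.mulVec c) = Φ⁻¹.mulVec (Φ.mulVec c') := by rw [hcc]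
    rwa [Matrix.mulVec_mulVec, Matrix.mulVec_mulVec, Matrix.nonsing_inv_mul _ hunit,
      Matrix.one_mulVec, Matrix.one_mulVec] at h2
  obtain ⟨S, hS⟩ : ∃ S : (ι → ℝ) →ₗ[ℝ] ℝ, ∀ c, S c = ∑ j, c j :=
    ⟨∑ j, LinearMap.proj j, fun c => by simp⟩
  have h1 : finrank ℝ (LinearMap.range S) + finrank ℝ (LinearMap.ker S) = Fintype.card ι := by
    rw [LinearMap.finrank_range_add_finrank_ker, finrank_fintype_fun_eq_card]
  have h2 : finrank ℝ (LinearMap.range S) ≤ 1 := by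
    have := Submodule.finrank_le (LinearMap.range S)
    rwa [finrank_self] at this
  have h3 : finrank ℝ ((LinearMap.ker S).map T) = finrank ℝ (LinearMap.ker S) :=
    (LinearEquiv.finrank_eq (Submodule.equivMapOfInjective T hTinj (LinearMap.ker S))).symm
  obtain ⟨L, hL⟩ : ∃ L : E →ₗ[ℝ] (ι → ℝ), L = LinearMap.pi fun i => (f i : E →ₗ[ℝ] ℝ) :=
    ⟨_, rfl⟩
  have hker : ker f = LinearMap.ker L := by rw [hL]; rfl
  have h4 : (LinearMap.ker S).map T ≤ LinearMap.range L := by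
    rintro _ ⟨c, hc, rfl⟩
    refine ⟨∑ j, c j • u j, ?_⟩
    ext i
    rw [SetLike.mem_coe, LinearMap.mem_ker, hS] at hc
    rw [hT, hL, LinearMap.pi_apply, ContinuousLinearMap.coe_coe, map_sum]
    have h5 : ∑ j, (f i (u j) + b i) * c j = ∑ j, f i (c j • u j) + b i * ∑ j, c j := by
      rw [Finset.mul_sum, ← Finset.sum_add_distrib]
      refine Finset.sum_congr rfl fun j _ => ?_
      rw [map_smul, smul_eq_mul]
      ring
    rw [h5, hc, mul_zero, add_zero]
  have h5 := Submodule.finrank_mono h4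
  have h6 := LinearMap.finrank_range_add_finrank_ker L
  rw [hker]
  omega

end Coord

/-- negative coordinates -/
lemma neg_coord {ι : Type*} [Fintype ι] [DecidableEq ι] {Φ : ι → ι → ℝ} {β : ι → ℝ}
    (hΦ : ∀ i j, 0 ≤ Φ i j) {l : ι} (hl : 2 / 3 ≤ Φ l l) (h : 0 ≤ ∑ j, Φ l j * β j)
    (hneg : β l < 0) :
    -β l ≤ 3 / 2 * ∑ j ∈ Finset.univ.erase l, Φ l j * max (β j) 0 := by
  have h1 : Φ l l * β l + ∑ j ∈ Finset.univ.erase l, Φ l j * β j = ∑ j, Φ l j * β j :=
    Finset.add_sum_erase Finset.univ (fun j => Φ l j * β j) (Finset.mem_univ l)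
  have h2 : ∑ j ∈ Finset.univ.erase l, Φ l j * β j ≤
      ∑ j ∈ Finset.univ.erase l, Φ l j * max (β j) 0 :=
    Finset.sum_le_sum fun j _ => mul_le_mul_of_nonneg_left (le_max_left _ _) (hΦ l j)
  nlinarith

lemma sum_smul_mem {K : Set E} (hK : Convex ℝ K) {ι : Type*} (s : Finset ι) (c : ι → ℝ)
    (p : ι → E) (hc : ∀ j ∈ s, 0 ≤ c j) (hp : ∀ j ∈ s, p j ∈ K) (hne : K.Nonempty) :
    ∑ j ∈ s, c j • p j ∈ (∑ j ∈ s, c j) • K := by
  classical
  induction s using Finset.induction_on with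
  | empty =>
    rw [Finset.sum_empty, Finset.sum_empty, zero_smul_set hne]
    exact Set.mem_zero.2 rfl
  | insert a s ha ih =>
    rw [Finset.sum_insert ha, Finset.sum_insert ha, hK.add_smul (hc a (Finset.mem_insert_self a s))
      (Finset.sum_nonneg fun j hj => hc j (Finset.mem_insert_of_mem hj))]
    exact Set.add_mem_add (smul_mem_smul_set (hp a (Finset.mem_insert_self a s)))
      (ih (fun j hj => hc j (Finset.mem_insert_of_mem hj))
        (fun j hj => hp j (Finset.mem_insert_of_mem hj)))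

/-- **The main computation.** -/
theorem core {K : Set E} (hK : Convex ℝ K) {ι : Type*} [Fintype ι] [DecidableEq ι] [Nonempty ι]
    {u : ι → E} {f : ι → (E →L[ℝ] ℝ)} {b : ι → ℝ} (hu : ∀ j, u j ∈ K)
    (hnn : ∀ i, ∀ x ∈ K, 0 ≤ f i x + b i) (hsum : ∀ x, ∑ i, (f i x + b i) = 1)
    (hδ : ∀ j, 2 / 3 ≤ f j (u j) + b j) {g κ : ℝ} (hg : ∑ j, (1 - (f j (u j) + b j)) ≤ g)
    {q : ℕ} (hq : 3 * g + κ < q) {ρ : ℝ} (hρ0 : 0 ≤ ρ) (hρ : (q + Fintype.card ι) * ρ ≤ κ / 2)
    {N : ℕ}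
    (hcov : ∀ x : E, (∃ k : ι → ℕ, ∑ j, k j = q ∧
        x = ∑ j, ((k j + 1 : ℝ) / (q + Fintype.card ι)) • u j) →
      ∃ W : Fin N → E, ∀ w ∈ ker f, x + w ∈ K → ∃ i, ∃ w' ∈ ker f, x + w' ∈ K ∧
        w = W i + ρ • w') :
    ∃ m : ℝ, 0 < m ∧ m < 1 ∧ ∃ c : Sym ι q × Fin N → E, ∀ y ∈ K, ∃ i, ∃ z ∈ K,
      y = c i + m • z := by
  classical
  obtain ⟨β, hβ⟩ := exists_coord (fun i j => hnn i (u j) (hu j)) hsum hδ
  obtain ⟨j₀⟩ := ‹Nonempty ι›
  have hKne : K.Nonempty := ⟨u j₀, hu j₀⟩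
  obtain ⟨o, ho⟩ := hKne
  obtain ⟨Φ, hΦ⟩ : ∃ Φ : ι → ι → ℝ, ∀ i j, Φ i j = f i (u j) + b i := ⟨_, fun i j => rfl⟩
  have hΦ0 : ∀ i j, 0 ≤ Φ i j := fun i j => by rw [hΦ]; exact hnn i _ (hu j)
  have hcardpos : (0 : ℝ) < Fintype.card ι := by
    have : 0 < Fintype.card ι := Fintype.card_pos_iff.2 ⟨j₀⟩
    exact_mod_cast this
  obtain ⟨n, hn⟩ : ∃ n : ℝ, n = q + Fintype.card ι := ⟨_, rfl⟩
  have hn0 : 0 < n := by rw [hn]; positivity
  rw [← hn] at hρ hcov
  -- the vector t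
  obtain ⟨t, ht⟩ : ∃ t : (ι → ℕ) → ι → ℝ, ∀ k l, t k l =
    3 / 2 * ∑ j ∈ Finset.univ.erase l, Φ l j * (k j + 1) := ⟨_, fun k l => rfl⟩
  have ht0 : ∀ k l, 0 ≤ t k l := fun k l => by
    rw [ht]
    exact mul_nonneg (by norm_num) (Finset.sum_nonneg fun j _ =>
      mul_nonneg (hΦ0 l j) (by positivity))
  obtain ⟨δ, hδd⟩ : ∃ δ : ι → ℝ, ∀ j, δ j = 1 - (f j (u j) + b j) := ⟨_, fun j => rfl⟩
  have hδ3 : ∀ j, δ j ≤ 1 / 3 := fun j => by rw [hδd]; linarith [hδ j]
  have hcol : ∀ j, ∑ l ∈ Finset.univ.erase j, Φ l j = δ j := by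
    intro j
    have h1 := Finset.add_sum_erase Finset.univ (fun l => Φ l j) (Finset.mem_univ j)
    have h2 : ∑ l, Φ l j = 1 :=
      (Finset.sum_congr rfl fun l _ => hΦ l j).trans (hsum (u j))
    rw [hδd, ← hΦ]
    linarith
  have hδ0 : ∀ j, 0 ≤ δ j := fun j => by
    rw [← hcol]
    exact Finset.sum_nonneg fun l _ => hΦ0 l j
  have htsum : ∀ k : ι → ℕ, ∑ j, k j = q → ∑ l, t k l ≤ 3 / 2 * g + q / 2 := by
    intro k hk
    have h1 : ∑ l, t k l = 3 / 2 * ∑ j, (k j + 1 : ℝ) * δ j := by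
      simp only [ht]
      rw [← Finset.mul_sum]
      congr 1
      have h2 : ∀ l, ∑ j ∈ Finset.univ.erase l, Φ l j * (k j + 1 : ℝ) =
          ∑ j, if j = l then 0 else Φ l j * (k j + 1 : ℝ) := by
        intro l
        rw [← Finset.add_sum_erase Finset.univ _ (Finset.mem_univ l), if_pos rfl, zero_add]
        exact Finset.sum_congr rfl fun j hj => by rw [if_neg (Finset.ne_of_mem_erase hj)]
      simp only [h2]
      rw [Finset.sum_comm]
      refine Finset.sum_congr rfl fun j _ => ?_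
      rw [← hcol, Finset.mul_sum, ← Finset.add_sum_erase Finset.univ _ (Finset.mem_univ j),
        if_pos rfl, zero_add]
      refine Finset.sum_congr rfl fun l hl => ?_
      rw [if_neg (Finset.ne_of_mem_erase hl).symm]
      ring
    have h3 : ∑ j, (k j + 1 : ℝ) * δ j ≤ ∑ j, ((k j : ℝ) * (1 / 3) + δ j) := by
      refine Finset.sum_le_sum fun j _ => ?_
      have := mul_le_mul_of_nonneg_left (hδ3 j) (Nat.cast_nonneg (α := ℝ) (k j))
      linarith
    have h4 : ∑ j, ((k j : ℝ) * (1 / 3) + δ j) ≤ q / 3 + g := by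
      rw [Finset.sum_add_distrib, ← Finset.sum_mul]
      have h5 : ∑ j, (k j : ℝ) = q := by rw [← hk]; push_cast; rfl
      have h6 : ∑ j, δ j ≤ g := by simp only [hδd]; exact hg
      rw [h5]
      linarith
    rw [h1]
    linarith
  -- masses
  obtain ⟨a₁, ha₁⟩ : ∃ a₁ : ℝ, a₁ = q / 2 - 3 / 2 * g - κ / 2 := ⟨_, rfl⟩
  have ha₁0 : 0 < a₁ := by rw [ha₁]; linarith
  obtain ⟨a', ha'⟩ : ∃ a' : ℝ, a' = n * ρ := ⟨_, rfl⟩
  have ha'0 : 0 ≤ a' := by rw [ha']; positivity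
  have ha'κ : a' ≤ κ / 2 := by rw [ha']; exact hρ
  obtain ⟨r, hr⟩ : ∃ r : (ι → ℕ) → ℝ, ∀ k, r k = q - ∑ l, t k l - a' - a₁ := ⟨_, fun k => rfl⟩
  have hr0 : ∀ k : ι → ℕ, ∑ j, k j = q → 0 ≤ r k := by
    intro k hk
    rw [hr, ha₁]
    have := htsum k hk
    linarith
  obtain ⟨X, hX⟩ : ∃ X : (ι → ℕ) → E, ∀ k, X k = ∑ j, ((k j + 1 : ℝ) / n) • u j :=
    ⟨_, fun k => rfl⟩
  have hsumn : ∀ k : ι → ℕ, ∑ j, k j = q → ∑ j, (k j + 1 : ℝ) / n = 1 := by
    intro k hk
    rw [← Finset.sum_div, Finset.sum_add_distrib, Finset.sum_const, Finset.card_univ,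
      nsmul_eq_mul, mul_one, div_eq_one_iff_eq hn0.ne', hn]
    congr 1
    rw [← hk]
    push_cast
    rfl
  have hXK : ∀ k : ι → ℕ, ∑ j, k j = q → X k ∈ K := by
    intro k hk
    rw [hX]
    exact hK.sum_mem (fun j _ => by positivity) (hsumn k hk) (fun j _ => hu j)
  -- the counting function of a multiset
  obtain ⟨cnt, hcnt⟩ : ∃ cnt : Sym ι q → ι → ℕ, ∀ s j, cnt s j = Multiset.count j (s : Multiset ι) :=
    ⟨_, fun s j => rfl⟩
  have hcntsum : ∀ s, ∑ j, cnt s j = q := by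
    intro s
    simp only [hcnt]
    have h1 : ∑ j, Multiset.count j (s : Multiset ι) = Multiset.card (s : Multiset ι) :=
      Multiset.sum_count_eq_card (fun a _ => Finset.mem_univ a)
    rw [h1]
    exact s.2
  have hcntsurj : ∀ k : ι → ℕ, ∑ j, k j = q → ∃ s : Sym ι q, cnt s = k := by
    intro k hk
    have hcard : Multiset.card (∑ j, Multiset.replicate (k j) j) = q := by
      rw [Multiset.card_sum]
      simp only [Multiset.card_replicate]
      exact hk
    refine ⟨Sym.mk _ hcard, ?_⟩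
    ext j
    rw [hcnt]
    have h1 : Multiset.count j (∑ j, Multiset.replicate (k j) j) = k j := by
      rw [Multiset.count_sum']
      simp only [Multiset.count_replicate]
      rw [Finset.sum_ite_eq' Finset.univ j]
      simp
    exact h1
  have hW : ∀ s : Sym ι q, ∃ W : Fin N → E, ∀ w ∈ ker f, X (cnt s) + w ∈ K →
      ∃ i, ∃ w' ∈ ker f, X (cnt s) + w' ∈ K ∧ w = W i + ρ • w' := fun s =>
    hcov (X (cnt s)) ⟨cnt s, hcntsum s, hX _⟩
  choose W hW using hW
  obtain ⟨C, hC⟩ : ∃ C : Sym ι q × Fin N → E, ∀ p, C p = ∑ j, (cnt p.1 j : ℝ) • u j -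
    ∑ j, t (cnt p.1) j • u j - (a' + r (cnt p.1)) • X (cnt p.1) - a₁ • o + n • W p.1 p.2 :=
    ⟨_, fun p => rfl⟩
  have hna₁ : a₁ / n < 1 := by
    rw [div_lt_one hn0, ha₁, hn]
    have h1 : 0 ≤ g := le_trans (Finset.sum_nonneg fun j _ => by
      have := hδ0 j
      rw [hδd] at this
      exact this) hg
    have h2 : 0 ≤ κ := by linarith
    have h3 : (0 : ℝ) ≤ q := Nat.cast_nonneg q
    linarith
  refine ⟨1 - a₁ / n, by linarith, by linarith [div_pos ha₁0 hn0],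
    fun p => (1 / n) • C p + (a₁ / n) • o, fun y hy => ?_⟩
  obtain ⟨hb1, hb2, hb3⟩ := hβ y
  obtain ⟨B, hB⟩ : ∃ B : ι → ℝ, ∀ j, B j = max (β y j) 0 := ⟨_, fun j => rfl⟩
  have hB0 : ∀ j, 0 ≤ B j := fun j => by rw [hB]; exact le_max_right _ _
  have hBβ : ∀ j, β y j ≤ B j := fun j => by rw [hB]; exact le_max_left _ _
  have hBsum : 1 ≤ ∑ j, B j := by
    rw [← hb1]
    exact Finset.sum_le_sum fun j _ => hBβ j
  have hBpos : ∃ j, 0 < B j := by
    by_contra hcon
    push Not at hcon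
    have : ∑ j, B j ≤ 0 := Finset.sum_nonpos fun j _ => hcon j
    linarith
  obtain ⟨k, v, hv, hk, hk1, hk2⟩ := apportion B hB0 hBpos q
  have hkR : ∑ j, (k j : ℝ) = q := by rw [← hk]; push_cast; rfl
  -- v is not small
  have hvn : 1 ≤ v * n := by
    refine hBsum.trans ((Finset.sum_le_sum fun j _ => hk2 j).trans (le_of_eq ?_))
    rw [← Finset.mul_sum, Finset.sum_add_distrib, hkR, Finset.sum_const, Finset.card_univ,
      nsmul_eq_mul, mul_one, hn]
  obtain ⟨γ, hγ⟩ : ∃ γ : ι → ℝ, ∀ j, γ j = β y j - v * k j + v * t k j := ⟨_, fun j => rfl⟩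
  have hγ0 : ∀ j, 0 ≤ γ j := by
    intro j
    rw [hγ]
    rcases le_or_gt 0 (β y j) with h1 | h1
    · have h2 : B j = β y j := by rw [hB, max_eq_left h1]
      have h3 := hk1 j
      rw [h2] at h3
      have h4 := mul_nonneg hv.le (ht0 k j)
      linarith
    · have h2 : B j = 0 := by rw [hB, max_eq_right h1.le]
      have h3 := hk1 j
      rw [h2] at h3
      have h5 : -β y j ≤ v * t k j := by
        refine (neg_coord hΦ0 (by rw [hΦ]; exact hδ j) (β := β y) ?_ h1).trans ?_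
        · have h6 := hb2 j
          simp only [← hΦ] at h6
          rw [h6]
          exact hnn j y hy
        · rw [ht, ← mul_assoc, mul_comm v (3 / 2), mul_assoc]
          refine mul_le_mul_of_nonneg_left ?_ (by norm_num)
          rw [Finset.mul_sum]
          refine Finset.sum_le_sum fun i _ => ?_
          have h7 := mul_le_mul_of_nonneg_left (hk2 i) (hΦ0 j i)
          rw [hB] at h7
          linarith
      linarith
  -- the vertical part
  obtain ⟨w, hw⟩ : ∃ w, w = y - ∑ j, β y j • u j := ⟨_, rfl⟩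
  have hwker : w ∈ ker f := by rw [hw]; exact hb3
  have hvn0 : 0 < v * n := by positivity
  obtain ⟨s, hs⟩ := hcntsurj k hk
  have hwK : X k + (1 / (v * n)) • w ∈ K := by
    have h1 : X k + (1 / (v * n)) • w = (1 / (v * n)) • y +
        ∑ j, ((v * (k j + 1) - β y j) / (v * n)) • u j := by
      rw [hX, hw, smul_sub, Finset.smul_sum]
      have h2 : ∀ j, ((k j + 1 : ℝ) / n) • u j = ((v * (k j + 1) - β y j) / (v * n)) • u j +
          (1 / (v * n)) • β y j • u j := by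
        intro j
        rw [smul_smul, ← add_smul]
        congr 1
        field_simp
        ring
      rw [Finset.sum_congr rfl fun j _ => h2 j, Finset.sum_add_distrib]
      abel
    rw [h1]
    have h3 : (1 : ℝ) = 1 / (v * n) + ∑ j, (v * (k j + 1) - β y j) / (v * n) := by
      rw [← Finset.sum_div, Finset.sum_sub_distrib, hb1, ← Finset.mul_sum,
        Finset.sum_add_distrib, hkR, Finset.sum_const, Finset.card_univ, nsmul_eq_mul, mul_one,
        ← hn, ← add_div]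
      field_simp
      ring
    have h4 : (1 / (v * n)) • y + ∑ j, ((v * (k j + 1) - β y j) / (v * n)) • u j ∈
        (1 / (v * n) + ∑ j, (v * (k j + 1) - β y j) / (v * n)) • K := by
      have h5 : ∀ j, 0 ≤ (v * (k j + 1) - β y j) / (v * n) := fun j =>
        div_nonneg (by linarith [hk2 j, hBβ j]) hvn0.le
      rw [hK.add_smul (by positivity) (Finset.sum_nonneg fun j _ => h5 j)]
      exact Set.add_mem_add (smul_mem_smul_set hy)
        (sum_smul_mem hK _ _ _ (fun j _ => h5 j) (fun j _ => hu j) ⟨o, ho⟩)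
    rw [← h3, one_smul] at h4
    exact h4
  obtain ⟨i, w', hw'ker, hw'K, hww⟩ := hW s ((1 / (v * n)) • w)
    ((ker f).smul_mem _ hwker) (by rw [hs]; exact hwK)
  rw [hs] at hw'K
  -- the decomposition
  have hdec : y - (1 / n) • C (s, i) = (1 - 1 / (v * n)) • y + (∑ j, (γ j / (v * n)) • u j +
      ((r k / n) • X k + ((a' / n) • (X k + w') + (a₁ / n) • o))) := by
    have e1 : n • W s i = (1 / v) • w - a' • w' := by
      have : W s i = (1 / (v * n)) • w - ρ • w' := by rw [hww]; abel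
      rw [this, smul_sub, smul_smul, smul_smul, ha']
      congr 2
      field_simp
    have e2 : y = ∑ j, β y j • u j + w := by rw [hw]; abel
    have e3 : ∑ j, (γ j / (v * n)) • u j = (1 / (v * n)) • ∑ j, β y j • u j -
        (1 / n) • ∑ j, (k j : ℝ) • u j + (1 / n) • ∑ j, t k j • u j := by
      rw [Finset.smul_sum, Finset.smul_sum, Finset.smul_sum, ← Finset.sum_sub_distrib,
        ← Finset.sum_add_distrib]
      refine Finset.sum_congr rfl fun j _ => ?_
      rw [hγ, smul_smul, smul_smul, smul_smul, ← sub_smul, ← add_smul]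
      congr 1
      field_simp
    have e4 : (1 - 1 / (v * n)) • y = y - (1 / (v * n)) • (∑ j, β y j • u j + w) := by
      rw [← e2, sub_smul, one_smul]
    rw [hC, e3, e4]
    simp only [hs]
    rw [e1]
    have hn' : n ≠ 0 := hn0.ne'
    have hv' : v ≠ 0 := hv.ne'
    generalize ∑ j, β y j • u j = S1
    generalize ∑ j, (k j : ℝ) • u j = S2
    generalize ∑ j, t k j • u j = S3
    have e5 : (1 / (v * n)) = (1 / v) * (1 / n) := by field_simp
    rw [e5]
    module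
  have hmem : y - (1 / n) • C (s, i) - (a₁ / n) • o ∈ (1 - a₁ / n) • K := by
    rw [hdec]
    have h1 : (1 - 1 / (v * n)) • y + (∑ j, (γ j / (v * n)) • u j +
      ((r k / n) • X k + ((a' / n) • (X k + w') + (a₁ / n) • o))) - (a₁ / n) • o =
      (1 - 1 / (v * n)) • y + (∑ j, (γ j / (v * n)) • u j +
      ((r k / n) • X k + (a' / n) • (X k + w'))) := by abel
    rw [h1]
    have h2 : 1 - a₁ / n = (1 - 1 / (v * n)) + (∑ j, γ j / (v * n) + (r k / n + a' / n)) := by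
      have h3 : ∑ j, γ j / (v * n) = (1 - v * q + v * ∑ j, t k j) / (v * n) := by
        rw [← Finset.sum_div]
        congr 1
        simp only [hγ]
        rw [Finset.sum_add_distrib, Finset.sum_sub_distrib, hb1, ← Finset.mul_sum,
          ← Finset.mul_sum, hkR]
      rw [h3, hr]
      field_simp
      ring
    rw [h2]
    have h4 : 0 ≤ 1 - 1 / (v * n) := by
      rw [sub_nonneg, div_le_one hvn0]
      exact hvn
    have h5 : ∀ j, 0 ≤ γ j / (v * n) := fun j => div_nonneg (hγ0 j) hvn0.le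
    have h6 : 0 ≤ r k / n := div_nonneg (hr0 k hk) hn0.le
    have h7 : 0 ≤ a' / n := div_nonneg ha'0 hn0.le
    rw [hK.add_smul h4 (add_nonneg (Finset.sum_nonneg fun j _ => h5 j) (add_nonneg h6 h7)),
      hK.add_smul (Finset.sum_nonneg fun j _ => h5 j) (add_nonneg h6 h7), hK.add_smul h6 h7]
    exact Set.add_mem_add (smul_mem_smul_set hy) (Set.add_mem_add
      (sum_smul_mem hK _ _ _ (fun j _ => h5 j) (fun j _ => hu j) ⟨o, ho⟩)
      (Set.add_mem_add (smul_mem_smul_set (hXK k hk)) (smul_mem_smul_set hw'K)))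
  obtain ⟨z, hz, hz'⟩ := hmem
  refine ⟨(s, i), z, hz, ?_⟩
  have hz'' : (1 - a₁ / n) • z = y - (1 / n) • C (s, i) - (a₁ / n) • o := hz'
  simp only
  rw [hz'']
  abel

end Pool.Agent.Lib.MP_5e7226_co.MB
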