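import Pool.Agent.Lib.MP_5e7226_co.MB.B
import Pool.Agent.Lib.MP_5e7226_co.AB.A4

/-!
The vertical covering and the selection of the good functions.
-/

set_option autoImplicit false

open Set Module MeasureTheory
open scoped Pointwise

namespace Pool.Agent.Lib.MP_5e7226_co.MB

open Pool.Agent.Lib.MP_5e7226_co.MA Pool.Agent.Lib.MP_5e7226_co.AB

variable {E : Type*} [NormedAddCommGroup E] [NormedSpace ℝ E]

/-- The fibres over the points with positive coordinates contain interior points. -/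
theorem exists_fibre_interior {K : Set E} (hK : Convex ℝ K) {o : E} (ho : o ∈ interior K)
    {ι : Type*} [Fintype ι] [DecidableEq ι] [Nonempty ι]
    {u : ι → E} {f : ι → (E →L[ℝ] ℝ)} {b : ι → ℝ} (hu : ∀ j, u j ∈ K)
    (hnn : ∀ i, ∀ x ∈ K, 0 ≤ f i x + b i) (hsum : ∀ x, ∑ i, (f i x + b i) = 1)
    (hδ : ∀ j, 2 / 3 ≤ f j (u j) + b j) (c : ι → ℝ) (hc : ∀ j, 0 < c j) (hc1 : ∑ j, c j = 1) :
    ∃ w ∈ ker f, ∑ j, c j • u j + w ∈ interior K := by
  obtain ⟨β, hβ⟩ := exists_coord (fun i j => hnn i (u j) (hu j)) hsum hδ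
  obtain ⟨hb1, hb2, hb3⟩ := hβ o
  obtain ⟨j₀⟩ := ‹Nonempty ι›
  obtain ⟨j₁, -, hmin⟩ := Finset.exists_min_image Finset.univ c ⟨j₀, Finset.mem_univ _⟩
  obtain ⟨M, hM⟩ : ∃ M : ℝ, M = ∑ j, |β o j| + 1 := ⟨_, rfl⟩
  have hM1 : 1 ≤ M := by
    rw [hM]
    linarith [Finset.sum_nonneg fun j (_ : j ∈ Finset.univ) => abs_nonneg (β o j)]
  have hβM : ∀ j, β o j ≤ M := fun j => by
    have h1 := Finset.single_le_sum (f := fun j => |β o j|) (fun j _ => abs_nonneg (β o j))
      (Finset.mem_univ j)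
    linarith [le_abs_self (β o j)]
  obtain ⟨τ, hτ⟩ : ∃ τ : ℝ, τ = min (c j₁ / (2 * M)) (1 / 2) := ⟨_, rfl⟩
  have hτ0 : 0 < τ := by
    rw [hτ]
    have := hc j₁
    positivity
  have hτM : τ * M < c j₁ := by
    have h1 : τ ≤ c j₁ / (2 * M) := by rw [hτ]; exact min_le_left _ _
    have h2 : τ * M ≤ c j₁ / (2 * M) * M := mul_le_mul_of_nonneg_right h1 (by linarith)
    have h3 : c j₁ / (2 * M) * M = c j₁ / 2 := by field_simp
    linarith [hc j₁]
  have hτ1 : τ < 1 := by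
    have h1 : τ ≤ 1 / 2 := by rw [hτ]; exact min_le_right _ _
    linarith
  refine ⟨τ • (o - ∑ j, β o j • u j), (ker f).smul_mem _ hb3, ?_⟩
  have hcj : ∀ j, 0 < c j - τ * β o j := by
    intro j
    have h1 := mul_le_mul_of_nonneg_left (hβM j) hτ0.le
    have h2 := hmin j (Finset.mem_univ j)
    linarith
  have hsum1 : ∑ j, (c j - τ * β o j) = 1 - τ := by
    rw [Finset.sum_sub_distrib, hc1, ← Finset.mul_sum, hb1, mul_one]
  have h1 : ∑ j, c j • u j + τ • (o - ∑ j, β o j • u j) =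
      (1 - τ) • (∑ j, ((c j - τ * β o j) / (1 - τ)) • u j) + τ • o := by
    have h2 : (1 - τ) • (∑ j, ((c j - τ * β o j) / (1 - τ)) • u j) =
        ∑ j, c j • u j - τ • ∑ j, β o j • u j := by
      rw [Finset.smul_sum, Finset.smul_sum, ← Finset.sum_sub_distrib]
      refine Finset.sum_congr rfl fun j _ => ?_
      rw [smul_smul, smul_smul, ← sub_smul, mul_div_cancel₀ _ (by linarith : (1 - τ : ℝ) ≠ 0)]
    rw [h2, smul_sub]
    abel
  rw [h1]
  have h3 : ∑ j, ((c j - τ * β o j) / (1 - τ)) • u j ∈ K := by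
    refine hK.sum_mem (fun j _ => div_nonneg (hcj j).le (by linarith)) ?_ (fun j _ => hu j)
    rw [← Finset.sum_div, hsum1, div_self (by linarith)]
  exact hK.combo_self_interior_mem_interior h3 ho (by linarith) hτ0 (by ring)

/-- Covering of a fibre. -/
theorem fibre_cover [FiniteDimensional ℝ E] {K : Set E} (hK : Convex ℝ K) (hKc : IsCompact K)
    (V : Submodule ℝ E) {x w₀ : E} (hw₀ : w₀ ∈ V) (hx : x + w₀ ∈ interior K) {lam δ : ℝ}
    (hlam : 0 < lam) (hδ : 0 < δ) {N n' : ℕ} (hV : finrank ℝ V ≤ n')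
    (hN : (1 + 1 / lam) ^ n' * (n' * Real.log (4 / δ + 2)) < N) :
    ∃ W : Fin N → E, ∀ w ∈ V, x + w ∈ K → ∃ i, ∃ w' ∈ V, x + w' ∈ K ∧
      w = W i + (lam + δ) • w' := by
  let _ : MeasurableSpace V := borel V
  have _ : BorelSpace V := ⟨rfl⟩
  obtain ⟨F, hF⟩ : ∃ F : Set V, F = {w : V | x + (w : E) ∈ K} := ⟨_, rfl⟩
  have hFmem : ∀ w : V, w ∈ F ↔ x + (w : E) ∈ K := fun w => by rw [hF]; rfl
  have hcont : Continuous fun w : V => x + (w : E) := by fun_prop
  have hFconv : Convex ℝ F := by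
    intro v hv w hw s t hs ht hst
    rw [hFmem] at *
    have h1 := hK hv hw hs ht hst
    have h2 : x + ((s • v + t • w : V) : E) = s • (x + (v : E)) + t • (x + (w : E)) := by
      push_cast
      rw [smul_add, smul_add]
      have h3 : x = s • x + t • x := by rw [← add_smul, hst, one_smul]
      nth_rewrite 1 [h3]
      abel
    rw [h2]
    exact h1
  have hFclosed : IsClosed F := by
    rw [hF]
    exact hKc.isClosed.preimage hcont
  have hFcomp : IsCompact F := by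
    refine Metric.isCompact_of_isClosed_isBounded hFclosed ?_
    obtain ⟨R, hR⟩ := hKc.isBounded.exists_norm_le
    rw [Metric.isBounded_iff_subset_closedBall (0 : V)]
    refine ⟨R + ‖x‖, fun w hw => ?_⟩
    rw [mem_closedBall_zero_iff]
    have h1 := hR _ ((hFmem w).1 hw)
    have h2 : (w : E) = (x + (w : E)) - x := by abel
    calc ‖w‖ = ‖(w : E)‖ := rfl
      _ = ‖(x + (w : E)) - x‖ := by rw [← h2]
      _ ≤ ‖x + (w : E)‖ + ‖x‖ := norm_sub_le _ _
      _ ≤ R + ‖x‖ := by linarith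
  have hFpos : (Measure.addHaar : Measure V) F ≠ 0 := by
    have h1 : (Measure.addHaar : Measure V) ((fun w : V => x + (w : E)) ⁻¹' interior K) ≠ 0 := by
      refine IsOpen.measure_ne_zero _ (isOpen_interior.preimage hcont) ⟨⟨w₀, hw₀⟩, hx⟩
    intro h2
    refine h1 (measure_mono_null ?_ h2)
    intro w hw
    rw [hFmem]
    exact interior_subset hw
  have hN' : (1 + 1 / lam) ^ finrank ℝ V * (finrank ℝ V * Real.log (4 / δ + 2)) < N := by
    refine lt_of_le_of_lt ?_ hN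
    have hlog : 0 ≤ Real.log (4 / δ + 2) := Real.log_nonneg (by
      have : 0 < 4 / δ := by positivity
      linarith)
    have h1 : (1 : ℝ) ≤ 1 + 1 / lam := by
      have : 0 < 1 / lam := by positivity
      linarith
    have h2 : (finrank ℝ V : ℝ) ≤ n' := by exact_mod_cast hV
    exact mul_le_mul (pow_le_pow_right₀ h1 hV) (mul_le_mul_of_nonneg_right h2 hlog)
      (by positivity) (by positivity)
  obtain ⟨t, ht⟩ := cover_homothet (Measure.addHaar : Measure V) hFconv hFcomp hFpos hlam hδ hN'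
  refine ⟨fun i => (t i : E), fun w hw hxw => ?_⟩
  obtain ⟨i, k, hk, he⟩ := ht ⟨w, hw⟩ ((hFmem _).2 hxw)
  refine ⟨i, k, k.2, (hFmem _).1 hk, ?_⟩
  have := congrArg (fun v : V => (v : E)) he
  simpa using this

/-- The good functions. -/
theorem exists_good [FiniteDimensional ℝ E] {K : Set E} (hK : Convex ℝ K)
    (hKc : IsCompact K) {d : ℕ} (hd : finrank ℝ E = d) (hd1 : 1 ≤ d) {σ : ℝ}
    (hσ3 : 3 * (d - σ) ≤ d) (h : ¬ AsymLE K σ) :
    ∃ (n' : ℕ) (g : ℝ) (u : Fin (d - n' + 1) → E) (f : Fin (d - n' + 1) → (E →L[ℝ] ℝ))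
      (b : Fin (d - n' + 1) → ℝ), n' ≤ d ∧ 0 ≤ g ∧ g + n' / 3 < d - σ ∧
      (∀ j, u j ∈ K) ∧ (∀ j, ∀ x ∈ K, 0 ≤ f j x + b j) ∧ (∀ x, ∑ j, (f j x + b j) = 1) ∧
      (∀ j, 2 / 3 ≤ f j (u j) + b j) ∧ ∑ j, (1 - (f j (u j) + b j)) ≤ g := by
  classical
  have hd0 : (1 : ℝ) ≤ d := by exact_mod_cast hd1
  have hσ : 0 < σ := by linarith
  obtain ⟨u, f, b, hu, hnn, hsum, hlarge⟩ := exists_functions hK hKc hd hσ h
  obtain ⟨δ, hδ⟩ : ∃ δ : Fin (d + 1) → ℝ, ∀ j, δ j = 1 - (f j (u j) + b j) := ⟨_, fun j => rfl⟩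
  have hδ0 : ∀ j, 0 ≤ δ j := by
    intro j
    rw [hδ, sub_nonneg, ← hsum (u j)]
    exact Finset.single_le_sum (f := fun i => f i (u j) + b i)
      (fun i _ => hnn i (u j) (hu j)) (Finset.mem_univ j)
  have hδsum : ∑ j, δ j < d - σ := by
    simp only [hδ]
    rw [Finset.sum_sub_distrib, Finset.sum_const, Finset.card_univ, Fintype.card_fin,
      nsmul_eq_mul, mul_one]
    push_cast
    linarith
  obtain ⟨G, hG⟩ : ∃ G : Finset (Fin (d + 1)), G = Finset.univ.filter fun j => δ j ≤ 1 / 3 :=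
    ⟨_, rfl⟩
  have hGmem : ∀ j, j ∈ G ↔ δ j ≤ 1 / 3 := fun j => by rw [hG]; simp
  obtain ⟨n', hn'⟩ : ∃ n' : ℕ, n' = Gᶜ.card := ⟨_, rfl⟩
  have hcard : G.card + n' = d + 1 := by
    rw [hn', Finset.card_add_card_compl, Fintype.card_fin]
  have hsplit : ∑ j ∈ G, δ j + ∑ j ∈ Gᶜ, δ j = ∑ j, δ j := Finset.sum_add_sum_compl G δ
  have hbad : (n' : ℝ) / 3 ≤ ∑ j ∈ Gᶜ, δ j := by
    have h1 : ∑ j ∈ Gᶜ, (1 / 3 : ℝ) ≤ ∑ j ∈ Gᶜ, δ j := by
      refine Finset.sum_le_sum fun j hj => ?_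
      rw [Finset.mem_compl, hGmem] at hj
      linarith
    rw [Finset.sum_const, nsmul_eq_mul, ← hn'] at h1
    linarith
  have hgs : ∑ j ∈ G, δ j + n' / 3 < d - σ := by linarith
  have hg0 : 0 ≤ ∑ j ∈ G, δ j := Finset.sum_nonneg fun j _ => hδ0 j
  have hn'd : n' < d := by
    have : (n' : ℝ) < d := by linarith
    exact_mod_cast this
  have hGcard : G.card = d - n' + 1 := by omega
  obtain ⟨e⟩ : Nonempty (Fin (d - n' + 1) ≃ G) := by
    rw [← Fintype.card_eq, Fintype.card_coe, Fintype.card_fin, hGcard]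
  have hGsum : ∀ F : Fin (d + 1) → ℝ, ∑ j, F (e j : Fin (d + 1)) = ∑ j ∈ G, F j := by
    intro F
    rw [← Finset.sum_coe_sort G F]
    exact Equiv.sum_comp e fun j : G => F j
  refine ⟨n', ∑ j ∈ G, δ j, fun j => u (e j),
    fun j => f (e j) + (if j = 0 then ∑ i ∈ Gᶜ, f i else 0),
    fun j => b (e j) + (if j = 0 then ∑ i ∈ Gᶜ, b i else 0), hn'd.le, hg0, hgs,
    fun j => hu _, ?_, ?_, ?_, ?_⟩
  · intro j x hx
    have h1 := hnn (e j) x hx
    by_cases hj : j = 0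
    · simp only [if_pos hj]
      have h2 : 0 ≤ ∑ i ∈ Gᶜ, (f i x + b i) := Finset.sum_nonneg fun i _ => hnn i x hx
      rw [Finset.sum_add_distrib] at h2
      rw [add_apply, _root_.sum_apply]
      linarith
    · simp only [if_neg hj]
      rw [add_zero, add_zero]
      exact h1
  · intro x
    have h1 : ∀ j, (f (e j) + (if j = 0 then ∑ i ∈ Gᶜ, f i else 0)) x +
        (b (e j) + (if j = 0 then ∑ i ∈ Gᶜ, b i else 0)) = (f (e j) x + b (e j)) +
        (if j = 0 then ∑ i ∈ Gᶜ, (f i x + b i) else 0) := by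
      intro j
      by_cases hj : j = 0
      · simp only [if_pos hj]
        rw [add_apply, _root_.sum_apply, Finset.sum_add_distrib]
        ring
      · simp only [if_neg hj]
        rw [add_zero, add_zero, add_zero]
    simp only [h1]
    rw [Finset.sum_add_distrib, hGsum (fun j => f j x + b j), Finset.sum_ite_eq' Finset.univ 0,
      if_pos (Finset.mem_univ _), Finset.sum_add_sum_compl, hsum]
  · intro j
    have h1 : 2 / 3 ≤ f (e j) (u (e j)) + b (e j) := by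
      have h2 := (hGmem (e j)).1 (e j).2
      rw [hδ] at h2
      linarith
    by_cases hj : j = 0
    · simp only [if_pos hj]
      have h2 : 0 ≤ ∑ i ∈ Gᶜ, (f i (u (e j)) + b i) :=
        Finset.sum_nonneg fun i _ => hnn i _ (hu _)
      rw [Finset.sum_add_distrib] at h2
      rw [add_apply, _root_.sum_apply]
      linarith
    · simp only [if_neg hj]
      rw [add_zero, add_zero]
      exact h1
  · rw [← hGsum δ]
    refine Finset.sum_le_sum fun j _ => ?_
    rw [hδ]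
    by_cases hj : j = 0
    · simp only [if_pos hj]
      have h2 : 0 ≤ ∑ i ∈ Gᶜ, (f i (u (e j)) + b i) :=
        Finset.sum_nonneg fun i _ => hnn i _ (hu _)
      rw [Finset.sum_add_distrib] at h2
      rw [add_apply, _root_.sum_apply]
      linarith
    · simp only [if_neg hj]
      rw [add_zero, add_zero]

/-- The covering theorem. -/
theorem cover [FiniteDimensional ℝ E] {K : Set E} (hK : Convex ℝ K)
    (hKc : IsCompact K) (hne : (interior K).Nonempty) {d : ℕ} (hd : finrank ℝ E = d) (hd1 : 1 ≤ d)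
    {σ : ℝ} (hσ3 : 3 * (d - σ) ≤ d) (h : ¬ AsymLE K σ) :
    ∃ (n' : ℕ) (g : ℝ), n' ≤ d ∧ 0 ≤ g ∧ g + n' / 3 < d - σ ∧
      ∀ (q N : ℕ) (lam δ : ℝ), 3 * g + (d - σ) < q → 0 < lam → 0 < δ →
        (q + (d - n' + 1)) * (lam + δ) ≤ (d - σ) / 2 →
        (1 + 1 / lam) ^ n' * (n' * Real.log (4 / δ + 2)) < N →
        ∃ m : ℝ, 0 < m ∧ m < 1 ∧ ∃ t : Fin ((d - n' + q).choose q * N) → E,
          ∀ y ∈ K, ∃ i, ∃ z ∈ K, y = t i + m • z := by
  classical
  obtain ⟨n', g, u, f, b, hn'd, hg0, hgn, hu, hnn, hsum, hδ, hg⟩ :=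
    exists_good hK hKc hd hd1 hσ3 h
  obtain ⟨o, ho⟩ := hne
  refine ⟨n', g, hn'd, hg0, hgn, fun q N lam δ hq hlam hδ0 hρ hN => ?_⟩
  have hcast : ((Fintype.card (Fin (d - n' + 1)) : ℕ) : ℝ) = (d : ℝ) - n' + 1 := by
    rw [Fintype.card_fin]
    push_cast [Nat.cast_sub hn'd]
    ring
  have hdim : finrank ℝ (ker f) ≤ n' := by
    have h1 := finrank_ker_le (fun i j => hnn i (u j) (hu j)) hsum hδ
    rw [Fintype.card_fin, hd] at h1
    omega
  obtain ⟨m, hm0, hm1, c, hc⟩ := core (N := N) hK hu hnn hsum hδ hg hq (ρ := lam + δ)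
    (by positivity) (by rw [hcast]; exact hρ) (by
      rintro x ⟨k, hk, rfl⟩
      have hnpos : (0 : ℝ) < q + (Fintype.card (Fin (d - n' + 1)) : ℝ) := by
        rw [Fintype.card_fin]
        positivity
      obtain ⟨w₀, hw₀, hint⟩ := exists_fibre_interior hK ho hu hnn hsum hδ
        (fun j => (k j + 1 : ℝ) / (q + (Fintype.card (Fin (d - n' + 1)) : ℝ)))
        (fun j => by positivity) (by
          rw [← Finset.sum_div, Finset.sum_add_distrib, Finset.sum_const, Finset.card_univ,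
            nsmul_eq_mul, mul_one, div_eq_one_iff_eq hnpos.ne']
          congr 1
          rw [← hk]
          push_cast
          rfl)
      exact fibre_cover hK hKc (ker f) hw₀ hint hlam hδ0 hdim hN)
  have hcard : Fintype.card (Sym (Fin (d - n' + 1)) q × Fin N) =
      (d - n' + q).choose q * N := by
    rw [Fintype.card_prod, Sym.card_sym_eq_choose, Fintype.card_fin, Fintype.card_fin]
    congr 2
    omega
  obtain ⟨e⟩ : Nonempty (Fin ((d - n' + q).choose q * N) ≃ Sym (Fin (d - n' + 1)) q × Fin N) := by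
    rw [← Fintype.card_eq, hcard, Fintype.card_fin]
  refine ⟨m, hm0, hm1, fun i => c (e i), fun y hy => ?_⟩
  obtain ⟨i, z, hz, he⟩ := hc y hy
  refine ⟨e.symm i, z, hz, ?_⟩
  show y = c (e (e.symm i)) + m • z
  rw [Equiv.apply_symm_apply]
  exact he

end Pool.Agent.Lib.MP_5e7226_co.MB
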