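import Pool.Agent.Lib.MP_5e7226_co.MB.A

/-!
The numerical part.
-/

set_option autoImplicit false

namespace Pool.Agent.Lib.MP_5e7226_co.MB

lemma lt_two_pow_real (n : ℕ) : (n : ℝ) ≤ 2 ^ n := by
  have : n ≤ 2 ^ n := n.lt_two_pow_self.le
  exact_mod_cast this

theorem choose_le (m q : ℕ) {x : ℝ} (hx0 : 0 < x) (hx1 : x < 1) :
    ((m + q).choose q : ℝ) ≤ (1 / x) ^ q * (1 / (1 - x)) ^ (m + 1) := by
  have h := choose_bound m q hx0.le hx1.le
  have h1 : 0 < 1 - x := by linarith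
  rw [one_div, one_div, inv_pow, inv_pow, ← mul_inv, ← one_div, le_div_iff₀ (by positivity),
    ← mul_assoc]
  exact h

/-- The numbers for `κ = d / 40`. -/
theorem numbers40 {d n' : ℕ} {g κ : ℝ} (hd : 41 ≤ d) (hn : n' ≤ d) (hg0 : 0 ≤ g)
    (hκ : κ = d / 40) (hgn : g + n' / 3 < κ) :
    ∃ (q N : ℕ) (lam δ : ℝ), 3 * g + κ < q ∧ 0 < lam ∧ 0 < δ ∧
      (q + (d - n' + 1)) * (lam + δ) ≤ κ / 2 ∧
      (1 + 1 / lam) ^ n' * (n' * Real.log (4 / δ + 2)) < N ∧
      (d - n' + q).choose q * N < 2 ^ d := by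
  have hd0 : (41 : ℝ) ≤ d := by exact_mod_cast hd
  have hn0 : (n' : ℝ) ≤ d := by exact_mod_cast hn
  have hn1 : (0 : ℝ) ≤ n' := Nat.cast_nonneg _
  have hκ0 : 0 < κ := by rw [hκ]; positivity
  obtain ⟨q, hq⟩ : ∃ q : ℕ, q = ⌊3 * g + κ⌋₊ + 1 := ⟨_, rfl⟩
  have hq1 : 3 * g + κ < q := by
    rw [hq]
    push_cast
    exact Nat.lt_floor_add_one _
  have hq2 : (q : ℝ) ≤ 3 * g + κ + 1 := by
    rw [hq]
    push_cast
    linarith [Nat.floor_le (by positivity : 0 ≤ 3 * g + κ)]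
  obtain ⟨A, hA⟩ : ∃ A : ℝ, A = q + (d - n' + 1) := ⟨_, rfl⟩
  have hA0 : 0 < A := by
    rw [hA]
    have : (0 : ℝ) ≤ q := Nat.cast_nonneg _
    linarith
  have hAκ : A ≤ 46 * κ := by
    rw [hA, hκ]
    rw [hκ] at hq2 hgn
    linarith
  obtain ⟨ρ, hρ⟩ : ∃ ρ : ℝ, ρ = κ / 2 / A := ⟨_, rfl⟩
  have hρ0 : 0 < ρ := by rw [hρ]; positivity
  have hinv : 1 / ρ ≤ 92 := by
    rw [hρ, one_div_div, div_le_iff₀ (by positivity)]
    linarith
  have h1 : 1 + 1 / (9 / 10 * ρ) ≤ 128 := by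
    have : 1 / (9 / 10 * ρ) = 10 / 9 * (1 / ρ) := by field_simp
    rw [this]
    linarith
  have h2 : Real.log (4 / (1 / 10 * ρ) + 2) ≤ 16 := by
    have e1 : 4 / (1 / 10 * ρ) = 40 * (1 / ρ) := by field_simp; norm_num
    have e2 : 4 / (1 / 10 * ρ) + 2 ≤ 2 ^ 12 := by
      rw [e1]
      norm_num
      norm_num at hinv
      linarith
    have e3 : 0 < 4 / (1 / 10 * ρ) + 2 := by positivity
    calc Real.log (4 / (1 / 10 * ρ) + 2) ≤ Real.log (2 ^ 12) := Real.log_le_log e3 e2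
      _ = 12 * Real.log 2 := by rw [Real.log_pow]; norm_num
      _ ≤ 16 := by linarith [Real.log_two_lt_d9]
  refine ⟨q, 2 ^ (8 * n' + 4), 9 / 10 * ρ, 1 / 10 * ρ, hq1, by positivity, by positivity,
    ?_, ?_, ?_⟩
  · rw [← hA, ← add_mul, hρ]
    have : A * ((9 / 10 + 1 / 10) * (κ / 2 / A)) = κ / 2 := by
      field_simp
      norm_num
    rw [this]
  · have e1 : (n' : ℝ) < 2 ^ n' := by
      have : n' < 2 ^ n' := n'.lt_two_pow_self
      exact_mod_cast this
    have e2 : (1 + 1 / (9 / 10 * ρ)) ^ n' ≤ 128 ^ n' := pow_le_pow_left₀ (by positivity) h1 n'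
    have e3 : (n' : ℝ) * Real.log (4 / (1 / 10 * ρ) + 2) ≤ n' * 16 :=
      mul_le_mul_of_nonneg_left h2 hn1
    have e4 : 0 ≤ (n' : ℝ) * Real.log (4 / (1 / 10 * ρ) + 2) := by
      refine mul_nonneg hn1 (Real.log_nonneg ?_)
      have : 0 < 4 / (1 / 10 * ρ) := by positivity
      linarith
    calc (1 + 1 / (9 / 10 * ρ)) ^ n' * (n' * Real.log (4 / (1 / 10 * ρ) + 2))
        ≤ 128 ^ n' * (n' * 16) := mul_le_mul e2 e3 e4 (by positivity)
      _ < 128 ^ n' * (2 ^ n' * 16) :=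
        mul_lt_mul_of_pos_left (mul_lt_mul_of_pos_right e1 (by norm_num)) (by positivity)
      _ = ((2 ^ (8 * n' + 4) : ℕ) : ℝ) := by
        push_cast
        rw [pow_add, pow_mul, ← mul_assoc, ← mul_pow]
        norm_num
  · have e1 := choose_le (d - n') q (x := 1 / 16) (by norm_num) (by norm_num)
    have e2 : (1 / (1 / 16 : ℝ)) = 16 := by norm_num
    have e3 : (1 / (1 - 1 / 16) : ℝ) = 16 / 15 := by norm_num
    rw [e2, e3] at e1
    have e4 : ((16 : ℝ) / 15) ^ (d - n' + 1) ≤ (16 / 15) ^ (d + 1) :=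
      pow_le_pow_right₀ (by norm_num) (by omega)
    have e5 : (((d - n' + q).choose q * 2 ^ (8 * n' + 4) : ℕ) : ℝ) ≤
        16 ^ q * (16 / 15) ^ (d + 1) * 2 ^ (8 * n' + 4) := by
      push_cast
      refine mul_le_mul_of_nonneg_right (e1.trans ?_) (by positivity)
      exact mul_le_mul_of_nonneg_left e4 (by positivity)
    have e6 : ((16 : ℝ) ^ q * (16 / 15) ^ (d + 1) * 2 ^ (8 * n' + 4)) ^ 10 < (2 ^ d) ^ 10 := by
      have f1 : ((16 : ℝ) ^ q * (16 / 15) ^ (d + 1) * 2 ^ (8 * n' + 4)) ^ 10 =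
          2 ^ (40 * q) * ((16 / 15) ^ 10) ^ (d + 1) * 2 ^ (80 * n' + 40) := by
        rw [mul_pow, mul_pow, ← pow_mul, ← pow_mul, ← pow_mul, ← pow_mul]
        congr 1
        · congr 1
          · have : (16 : ℝ) = 2 ^ 4 := by norm_num
            rw [this, ← pow_mul]
            congr 1
            ring
          · congr 1
            ring
        · congr 1
          ring
      have f2 : ((16 / 15 : ℝ) ^ 10) ^ (d + 1) < 2 ^ (d + 1) :=
        pow_lt_pow_left₀ (by norm_num) (by positivity) (by omega)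
      have f3 : 40 * q + (d + 1) + (80 * n' + 40) ≤ d * 10 := by
        have : (40 * q + (d + 1) + (80 * n' + 40) : ℝ) ≤ d * 10 := by
          rw [hκ] at hq2 hgn
          linarith
        exact_mod_cast this
      rw [f1]
      calc (2 : ℝ) ^ (40 * q) * ((16 / 15) ^ 10) ^ (d + 1) * 2 ^ (80 * n' + 40)
          < 2 ^ (40 * q) * 2 ^ (d + 1) * 2 ^ (80 * n' + 40) :=
            mul_lt_mul_of_pos_right (mul_lt_mul_of_pos_left f2 (by positivity))
              (by positivity)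
        _ = 2 ^ (40 * q + (d + 1) + (80 * n' + 40)) := by rw [← pow_add, ← pow_add]
        _ ≤ 2 ^ (d * 10) := pow_le_pow_right₀ (by norm_num) f3
        _ = (2 ^ d) ^ 10 := by rw [pow_mul]
    have e7 := lt_of_pow_lt_pow_left₀ 10 (by positivity) e6
    have e8 := e5.trans_lt e7
    exact_mod_cast e8

/-- The numbers in general. -/
theorem numbers {d n' : ℕ} {g κ : ℝ} (hκ1 : 1 ≤ κ) (hκ3 : 3 * κ ≤ d) (hn : n' ≤ d) (hg0 : 0 ≤ g)
    (hgn : g + n' / 3 < κ) :
    ∃ (q N : ℕ) (lam δ : ℝ), 3 * g + κ < q ∧ 0 < lam ∧ 0 < δ ∧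
      (q + (d - n' + 1)) * (lam + δ) ≤ κ / 2 ∧
      (1 + 1 / lam) ^ n' * (n' * Real.log (4 / δ + 2)) < N ∧
      (((d - n' + q).choose q * N : ℕ) : ℝ) ≤ (10 * d / κ) ^ (4 * κ + 2) := by
  have hn0 : (n' : ℝ) ≤ d := by exact_mod_cast hn
  have hn1 : (0 : ℝ) ≤ n' := Nat.cast_nonneg _
  have hκ0 : 0 < κ := by linarith
  have hd0 : (3 : ℝ) ≤ d := by linarith
  obtain ⟨y, hy⟩ : ∃ y : ℝ, y = d / κ := ⟨_, rfl⟩
  have hyκ : y * κ = d := by rw [hy]; field_simp
  have hy3 : 3 ≤ y := by rw [hy, le_div_iff₀ hκ0]; exact hκ3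
  obtain ⟨q, hq⟩ : ∃ q : ℕ, q = ⌊3 * g + κ⌋₊ + 1 := ⟨_, rfl⟩
  have hq1 : 3 * g + κ < q := by
    rw [hq]
    push_cast
    exact Nat.lt_floor_add_one _
  have hq2 : (q : ℝ) ≤ 3 * g + κ + 1 := by
    rw [hq]
    push_cast
    linarith [Nat.floor_le (by positivity : 0 ≤ 3 * g + κ)]
  obtain ⟨A, hA⟩ : ∃ A : ℝ, A = q + (d - n' + 1) := ⟨_, rfl⟩
  have hA0 : 0 < A := by
    rw [hA]
    have : (0 : ℝ) ≤ q := Nat.cast_nonneg _
    linarith
  have hAκ : A ≤ 3 * y * κ := by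
    rw [hA, mul_assoc, hyκ]
    linarith
  obtain ⟨ρ, hρ⟩ : ∃ ρ : ℝ, ρ = κ / 2 / A := ⟨_, rfl⟩
  have hρ0 : 0 < ρ := by rw [hρ]; positivity
  have hinv : 1 / ρ ≤ 6 * y := by
    rw [hρ, one_div_div, div_le_iff₀ (by positivity)]
    linarith
  have h1 : 1 + 1 / (9 / 10 * ρ) ≤ 7 * y := by
    have : 1 / (9 / 10 * ρ) = 10 / 9 * (1 / ρ) := by field_simp
    rw [this]
    linarith
  have h2 : Real.log (4 / (1 / 10 * ρ) + 2) ≤ 13 / 5 * y := by
    have e1 : 4 / (1 / 10 * ρ) = 40 * (1 / ρ) := by field_simp; norm_num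
    have e2 : 4 / (1 / 10 * ρ) + 2 ≤ 2 ^ 8 * y := by
      rw [e1]
      norm_num
      norm_num at hinv
      linarith
    have e3 : 0 < 4 / (1 / 10 * ρ) + 2 := by positivity
    have e4 := Real.log_le_sub_one_of_pos (by linarith : 0 < y)
    calc Real.log (4 / (1 / 10 * ρ) + 2) ≤ Real.log (2 ^ 8 * y) := Real.log_le_log e3 e2
      _ = 8 * Real.log 2 + Real.log y := by
        rw [Real.log_mul (by norm_num) (by linarith), Real.log_pow]
        norm_num
      _ ≤ 13 / 5 * y := by linarith [Real.log_two_lt_d9]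
  obtain ⟨T, hT⟩ : ∃ T : ℝ, T = (1 + 1 / (9 / 10 * ρ)) ^ n' *
      (n' * Real.log (4 / (1 / 10 * ρ) + 2)) := ⟨_, rfl⟩
  have hlog0 : 0 ≤ (n' : ℝ) * Real.log (4 / (1 / 10 * ρ) + 2) := by
    refine mul_nonneg hn1 (Real.log_nonneg ?_)
    have : 0 < 4 / (1 / 10 * ρ) := by positivity
    linarith
  have hT0 : 0 ≤ T := by
    rw [hT]
    positivity
  have hT1 : T ≤ (7 * y) ^ n' * (39 / 5 * (y * κ)) := by
    rw [hT]
    refine mul_le_mul (pow_le_pow_left₀ (by positivity) h1 n') ?_ hlog0 (by positivity)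
    calc (n' : ℝ) * Real.log (4 / (1 / 10 * ρ) + 2) ≤ (3 * κ) * (13 / 5 * y) :=
        mul_le_mul (by linarith) h2 (Real.log_nonneg (by
          have : 0 < 4 / (1 / 10 * ρ) := by positivity
          linarith)) (by positivity)
      _ = 39 / 5 * (y * κ) := by ring
  have h7 : 1 ≤ (7 * y) ^ n' := one_le_pow₀ (by linarith)
  refine ⟨q, ⌊T⌋₊ + 1, 9 / 10 * ρ, 1 / 10 * ρ, hq1, by positivity, by positivity,
    ?_, ?_, ?_⟩
  · rw [← hA, ← add_mul, hρ]
    have : A * ((9 / 10 + 1 / 10) * (κ / 2 / A)) = κ / 2 := by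
      field_simp
      norm_num
    rw [this]
  · rw [← hT]
    push_cast
    exact Nat.lt_floor_add_one _
  · have e1 := choose_le (d - n') q (x := 1 / y) (by positivity) (by
      rw [div_lt_one (by linarith)]
      linarith)
    rw [one_div_one_div] at e1
    -- the second factor
    have e2 : (1 / (1 - 1 / y)) ^ (d - n' + 1) ≤ Real.exp (3 / 2 * κ + 1 / 2) := by
      have f0 : 0 < 1 - 1 / y := by
        rw [sub_pos, div_lt_one (by linarith)]
        linarith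
      have f1 : 1 / (1 - 1 / y) ≤ Real.exp (3 / 2 / y) := by
        have g1 : 1 / (1 - 1 / y) = y / (y - 1) := by field_simp
        have g2 : y / (y - 1) = 1 + 1 / (y - 1) := by
          have : y - 1 ≠ 0 := by linarith
          field_simp
          ring
        have g3 : 1 / (y - 1) ≤ 3 / 2 / y := by
          rw [div_le_div_iff₀ (by linarith) (by linarith)]
          linarith
        rw [g1, g2]
        linarith [Real.add_one_le_exp (3 / 2 / y)]
      calc (1 / (1 - 1 / y)) ^ (d - n' + 1) ≤ (Real.exp (3 / 2 / y)) ^ (d - n' + 1) :=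
          pow_le_pow_left₀ (by positivity) f1 _
        _ = Real.exp ((d - n' + 1 : ℕ) * (3 / 2 / y)) := by rw [← Real.exp_nat_mul]
        _ ≤ Real.exp (3 / 2 * κ + 1 / 2) := by
          refine Real.exp_le_exp.2 ?_
          have g1 : ((d - n' + 1 : ℕ) : ℝ) ≤ d + 1 := by
            have : d - n' + 1 ≤ d + 1 := by omega
            exact_mod_cast this
          have g2 : ((d - n' + 1 : ℕ) : ℝ) * (3 / 2 / y) ≤ (d + 1) * (3 / 2 / y) :=
            mul_le_mul_of_nonneg_right g1 (by positivity)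
          have g3 : ((d : ℝ) + 1) * (3 / 2 / y) = 3 / 2 * κ + 3 / 2 / y := by
            rw [← hyκ]
            field_simp
          have g4 : 3 / 2 / y ≤ 1 / 2 := by
            rw [div_le_iff₀ (by linarith)]
            linarith
          linarith
    have e3 : ((⌊T⌋₊ + 1 : ℕ) : ℝ) ≤ (7 * y) ^ n' * (9 * (y * κ)) := by
      push_cast
      have f1 := Nat.floor_le hT0
      have f2 : (1 : ℝ) ≤ (7 * y) ^ n' * (y * κ) := by
        have : (1 : ℝ) ≤ y * κ := by rw [hyκ]; linarith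
        nlinarith
      have f3 : (7 * y) ^ n' * (39 / 5 * (y * κ)) = 39 / 5 * ((7 * y) ^ n' * (y * κ)) := by ring
      have f4 : (7 * y) ^ n' * (9 * (y * κ)) = 9 * ((7 * y) ^ n' * (y * κ)) := by ring
      rw [f4]
      rw [f3] at hT1
      linarith
    have e4 : (((d - n' + q).choose q * (⌊T⌋₊ + 1) : ℕ) : ℝ) ≤
        (y ^ q * Real.exp (3 / 2 * κ + 1 / 2)) * ((7 * y) ^ n' * (9 * (y * κ))) := by
      rw [Nat.cast_mul]
      refine mul_le_mul (e1.trans (mul_le_mul_of_nonneg_left e2 (by positivity))) e3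
        (by positivity) (by positivity)
    refine e4.trans ?_
    have e5 : (y ^ q * Real.exp (3 / 2 * κ + 1 / 2)) * ((7 * y) ^ n' * (9 * (y * κ))) =
        y ^ (q + n' + 1) * (7 ^ n' * (9 * κ) * Real.exp (3 / 2 * κ + 1 / 2)) := by
      rw [mul_pow, pow_add, pow_add, pow_one]
      ring
    have e6 : (y : ℝ) ^ (q + n' + 1) ≤ y ^ (4 * κ + 2) := by
      rw [← Real.rpow_natCast]
      refine Real.rpow_le_rpow_of_exponent_le (by linarith) ?_
      push_cast
      linarith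
    have e7 : (7 : ℝ) ^ n' ≤ Real.exp (6 * κ) := by
      have f1 : (7 : ℝ) ≤ Real.exp 2 := by
        have : Real.exp 2 = Real.exp 1 ^ 2 := by rw [← Real.exp_nat_mul]; norm_num
        rw [this]
        nlinarith [Real.exp_one_gt_d9]
      calc (7 : ℝ) ^ n' ≤ (Real.exp 2) ^ n' := pow_le_pow_left₀ (by norm_num) f1 _
        _ = Real.exp (n' * 2) := by rw [← Real.exp_nat_mul]
        _ ≤ Real.exp (6 * κ) := Real.exp_le_exp.2 (by linarith)
    have e8 : (9 : ℝ) * κ ≤ Real.exp (κ + 3 / 2) := by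
      have f1 : κ ≤ Real.exp (κ - 1) := by linarith [Real.add_one_le_exp (κ - 1)]
      have f2 : (9 : ℝ) ≤ Real.exp (5 / 2) := by
        have f3 : (9 : ℝ) ^ 2 ≤ Real.exp (5 / 2) ^ 2 := by
          have : Real.exp (5 / 2) ^ 2 = Real.exp 1 ^ 5 := by
            rw [← Real.exp_nat_mul, ← Real.exp_nat_mul]
            norm_num
          rw [this]
          have f4 : (2.7 : ℝ) ^ 5 ≤ Real.exp 1 ^ 5 :=
            pow_le_pow_left₀ (by norm_num) (by linarith [Real.exp_one_gt_d9]) 5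
          refine le_trans ?_ f4
          norm_num
        exact le_of_pow_le_pow_left₀ (by norm_num) (Real.exp_pos _).le f3
      have f3 : Real.exp (κ + 3 / 2) = Real.exp (5 / 2) * Real.exp (κ - 1) := by
        rw [← Real.exp_add]
        congr 1
        ring
      rw [f3]
      exact mul_le_mul f2 f1 (by positivity) (Real.exp_pos _).le
    have e9 : Real.exp (17 / 2 * κ + 2) ≤ (10 : ℝ) ^ (4 * κ + 2) := by
      have f1 : Real.exp (9 / 4) ≤ 10 := by
        have f2 : Real.exp (9 / 4) ^ 4 ≤ 10 ^ 4 := by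
          have : Real.exp (9 / 4) ^ 4 = Real.exp 1 ^ 9 := by
            rw [← Real.exp_nat_mul, ← Real.exp_nat_mul]
            norm_num
          rw [this]
          have f4 : Real.exp 1 ^ 9 ≤ (2.72 : ℝ) ^ 9 :=
            pow_le_pow_left₀ (Real.exp_pos _).le (by linarith [Real.exp_one_lt_d9]) 9
          refine le_trans f4 ?_
          norm_num
        exact le_of_pow_le_pow_left₀ (by norm_num) (by norm_num) f2
      calc Real.exp (17 / 2 * κ + 2) ≤ Real.exp (9 / 4 * (4 * κ + 2)) :=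
          Real.exp_le_exp.2 (by linarith)
        _ = (Real.exp (9 / 4)) ^ (4 * κ + 2) := by rw [Real.exp_mul]
        _ ≤ (10 : ℝ) ^ (4 * κ + 2) :=
          Real.rpow_le_rpow (Real.exp_pos _).le f1 (by linarith)
    rw [e5]
    have e10 : (10 * (d : ℝ) / κ) ^ (4 * κ + 2) = y ^ (4 * κ + 2) * (10 : ℝ) ^ (4 * κ + 2) := by
      have : 10 * (d : ℝ) / κ = y * 10 := by rw [hy]; ring
      rw [this, Real.mul_rpow (by linarith) (by norm_num)]
    rw [e10]
    refine mul_le_mul e6 ?_ (by positivity) (by positivity)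
    calc (7 : ℝ) ^ n' * (9 * κ) * Real.exp (3 / 2 * κ + 1 / 2)
        ≤ Real.exp (6 * κ) * Real.exp (κ + 3 / 2) * Real.exp (3 / 2 * κ + 1 / 2) := by
          refine mul_le_mul_of_nonneg_right (mul_le_mul e7 e8 (by positivity)
            (Real.exp_pos _).le) (Real.exp_pos _).le
      _ = Real.exp (17 / 2 * κ + 2) := by
        rw [← Real.exp_add, ← Real.exp_add]
        congr 1
        ring
      _ ≤ (10 : ℝ) ^ (4 * κ + 2) := e9

end Pool.Agent.Lib.MP_5e7226_co.MB
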