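import Pool.Agent.Lib.MP_5e7226_co.MB.C
import Pool.Agent.Lib.MP_5e7226_co.MB.D
import Pool.Agent.Lib.MP_5e7226_co.MA.Final

/-!
Illumination and separation of the faces for bodies with large asymmetry.
-/

set_option autoImplicit false

open Set Module
open scoped InnerProductSpace

namespace Pool.Agent.Lib.MP_5e7226_co.MB

open Pool.Agent.Lib.MP_5e7226_co.MA Pool.Agent.Lib.MP_5e7226_co.AB

variable {d : ℕ}

/-- a cover by `M` copies gives a cover by `M'` copies for `M ≤ M'` -/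
lemma pad {K : Set (EuclideanSpace ℝ (Fin d))} {M M' : ℕ} (hM : M ≤ M') {m : ℝ} {t : Fin M → EuclideanSpace ℝ (Fin d)}
    (ht : ∀ y ∈ K, ∃ i, ∃ z ∈ K, y = t i + m • z) :
    ∃ t' : Fin M' → EuclideanSpace ℝ (Fin d), ∀ y ∈ K, ∃ i, ∃ z ∈ K, y = t' i + m • z := by
  refine ⟨fun i => if h : (i : ℕ) < M then t ⟨i, h⟩ else 0, fun y hy => ?_⟩
  obtain ⟨i, z, hz, he⟩ := ht y hy
  refine ⟨⟨i, lt_of_lt_of_le i.2 hM⟩, z, hz, ?_⟩
  simp only [dif_pos i.2]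
  exact he

/-- Asymmetry larger than `d - κ`: a cover by few smaller copies. -/
theorem cover_general {K : Set (EuclideanSpace ℝ (Fin d))} (hK : Convex ℝ K) (hKc : IsCompact K)
    (hne : (interior K).Nonempty) (hd1 : 1 ≤ d) {κ : ℝ} (hκ1 : 1 ≤ κ) (hκ3 : 3 * κ ≤ d)
    (h : ¬ AsymLE K (d - κ)) :
    ∃ n : ℕ, (n : ℝ) ≤ (10 * d / κ) ^ (4 * κ + 2) ∧
      ∃ m : ℝ, 0 < m ∧ m < 1 ∧ ∃ t : Fin n → EuclideanSpace ℝ (Fin d), ∀ y ∈ K, ∃ i, ∃ z ∈ K, y = t i + m • z := by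
  obtain ⟨n', g, hn', hg0, hgn, hcov⟩ := cover hK hKc hne (finrank_euclideanSpace_fin (𝕜 := ℝ))
    hd1 (σ := d - κ) (by linarith) h
  rw [sub_sub_cancel] at hgn
  obtain ⟨q, N, lam, δ, h1, h2, h3, h4, h5, h6⟩ := numbers hκ1 hκ3 hn' hg0 hgn
  exact ⟨_, h6, hcov q N lam δ (by rw [sub_sub_cancel]; exact h1) h2 h3
    (by rw [sub_sub_cancel]; exact h4) h5⟩

lemma asym_mono {K : Set (EuclideanSpace ℝ (Fin d))} (hK : Convex ℝ K) {σ σ' : ℝ} (hσ : 0 < σ) (hle : σ ≤ σ')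
    (h : AsymLE K σ) : AsymLE K σ' := by
  obtain ⟨c, hc⟩ := h
  refine ⟨c, fun x hx => ?_⟩
  obtain ⟨y, hy, he⟩ := hc x hx
  have hσ' : 0 < σ' := lt_of_lt_of_le hσ hle
  have h1 : (1 + σ) • c = x + σ • y := by
    have : c = x + σ • (y - c) := by rw [← he]; abel
    rw [add_smul, one_smul]
    nth_rewrite 1 [this]
    rw [smul_sub]
    abel
  have hcK : c ∈ K := by
    have h2 : c = (1 / (1 + σ)) • x + (σ / (1 + σ)) • y := by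
      have h3 : (1 + σ : ℝ) ≠ 0 := by positivity
      have h4 : c = (1 / (1 + σ)) • ((1 + σ) • c) := by
        rw [smul_smul, one_div_mul_cancel h3, one_smul]
      rw [h1, smul_add, smul_smul, one_div_mul_eq_div] at h4
      exact h4
    rw [h2]
    refine hK hx hy (by positivity) (by positivity) ?_
    field_simp
  refine ⟨(1 - σ / σ') • c + (σ / σ') • y, hK hcK hy (sub_nonneg.2 ((div_le_one hσ').2 hle))
    (by positivity) (by ring), ?_⟩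
  have h5 : (1 - σ / σ') • c + (σ / σ') • y - c = (σ / σ') • (y - c) := by module
  rw [h5, he, smul_smul, mul_div_cancel₀ _ hσ'.ne']

lemma succ_le_two_pow {d : ℕ} (hd : 2 ≤ d) : d + 1 ≤ 2 ^ d - 1 := by
  induction d, hd using Nat.le_induction with
  | base => norm_num
  | succ k hk ih =>
    rw [pow_succ]
    have : k < 2 ^ k := k.lt_two_pow_self
    omega

/-- Asymmetry larger than `39 d / 40`: a cover by `2 ^ d - 1` smaller copies. -/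
theorem cover_two_pow {K : Set (EuclideanSpace ℝ (Fin d))} (hK : Convex ℝ K) (hKc : IsCompact K)
    (hne : (interior K).Nonempty) (hd : 2 ≤ d) (h : ¬ AsymLE K (39 / 40 * d)) :
    ∃ m : ℝ, 0 < m ∧ m < 1 ∧ ∃ t : Fin (2 ^ d - 1) → EuclideanSpace ℝ (Fin d), ∀ y ∈ K, ∃ i, ∃ z ∈ K, y = t i + m • z := by
  rcases le_or_gt d 40 with hd' | hd'
  · have hd0 : (d : ℝ) ≤ 40 := by exact_mod_cast hd'
    have hd2 : (2 : ℝ) ≤ d := by exact_mod_cast hd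
    have h1 : ¬ AsymLE K (d - 1) := fun h2 =>
      h (asym_mono hK (by linarith) (by linarith) h2)
    obtain ⟨m, hm0, hm1, t, ht⟩ := cover_strict hK hKc (finrank_euclideanSpace_fin (𝕜 := ℝ)) hd h1
    obtain ⟨t', ht'⟩ := pad (succ_le_two_pow hd) ht
    exact ⟨m, hm0, hm1, t', ht'⟩
  · have hd0 : (41 : ℝ) ≤ d := by exact_mod_cast hd'
    obtain ⟨n', g, hn', hg0, hgn, hcov⟩ := cover hK hKc hne (finrank_euclideanSpace_fin (𝕜 := ℝ))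
      (by omega) (σ := 39 / 40 * d) (by linarith) h
    have e : (d : ℝ) - 39 / 40 * d = d / 40 := by ring
    rw [e] at hgn
    obtain ⟨q, N, lam, δ, h1, h2, h3, h4, h5, h6⟩ := numbers40 hd' hn' hg0 rfl hgn
    obtain ⟨m, hm0, hm1, t, ht⟩ := hcov q N lam δ (by rw [e]; exact h1) h2 h3
      (by rw [e]; exact h4) h5
    obtain ⟨t', ht'⟩ := pad (Nat.le_sub_one_of_lt h6) ht
    exact ⟨m, hm0, hm1, t', ht'⟩

theorem illuminated_general {K : Set (EuclideanSpace ℝ (Fin d))} (hK : Convex ℝ K) (hKc : IsCompact K)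
    (hne : (interior K).Nonempty) (hd1 : 1 ≤ d) {κ : ℝ} (hκ1 : 1 ≤ κ) (hκ3 : 3 * κ ≤ d)
    (h : ¬ AsymLE K (d - κ)) :
    ∃ n : ℕ, (n : ℝ) ≤ (10 * d / κ) ^ (4 * κ + 2) ∧ ∃ p : Fin n → EuclideanSpace ℝ (Fin d), (∀ i, p i ∉ K) ∧
      ∀ q ∈ frontier K, ∃ i, ∃ s : ℝ, 0 < s ∧ q + s • (q - p i) ∈ interior K := by
  obtain ⟨n, hn, m, hm0, hm1, t, ht⟩ := cover_general hK hKc hne hd1 hκ1 hκ3 h
  obtain ⟨z, hz⟩ := hne
  exact ⟨n, hn, illuminated_of_cover hd1 hK hKc hz hm0 hm1 t ht⟩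

theorem illuminated_two_pow {K : Set (EuclideanSpace ℝ (Fin d))} (hK : Convex ℝ K) (hKc : IsCompact K)
    (hne : (interior K).Nonempty) (hd : 2 ≤ d) (h : ¬ AsymLE K (39 / 40 * d)) :
    ∃ p : Fin (2 ^ d - 1) → EuclideanSpace ℝ (Fin d), (∀ i, p i ∉ K) ∧
      ∀ q ∈ frontier K, ∃ i, ∃ s : ℝ, 0 < s ∧ q + s • (q - p i) ∈ interior K := by
  obtain ⟨m, hm0, hm1, t, ht⟩ := cover_two_pow hK hKc hne hd h
  obtain ⟨z, hz⟩ := hne
  exact illuminated_of_cover (by omega) hK hKc hz hm0 hm1 t ht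

lemma pol_interior {K : Set (EuclideanSpace ℝ (Fin d))} (hKc : IsCompact K) {o : EuclideanSpace ℝ (Fin d)} :
    (interior (pol K o)).Nonempty := by
  obtain ⟨R, hR, hKR⟩ : ∃ R, 0 < R ∧ ∀ y ∈ K, ‖y - o‖ ≤ R := by
    obtain ⟨R, hR⟩ := hKc.isBounded.exists_norm_le
    refine ⟨max (R + ‖o‖) 1, by positivity, fun y hy => ?_⟩
    exact ((norm_sub_le y o).trans (add_le_add (hR y hy) le_rfl)).trans (le_max_left _ _)
  refine ⟨0, mem_interior.2 ⟨Metric.ball 0 (1 / R), ?_, Metric.isOpen_ball,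
    Metric.mem_ball_self (by positivity)⟩⟩
  intro x hx y hy
  rw [mem_ball_zero_iff, lt_div_iff₀ hR] at hx
  calc ⟪x, y - o⟫_ℝ ≤ ‖x‖ * ‖y - o‖ := real_inner_le_norm _ _
    _ ≤ ‖x‖ * R := mul_le_mul_of_nonneg_left (hKR y hy) (norm_nonneg _)
    _ ≤ 1 := hx.le

theorem separated_general {K : Set (EuclideanSpace ℝ (Fin d))} (hKc : IsCompact K) {o : EuclideanSpace ℝ (Fin d)} (ho : o ∈ interior K)
    (hd1 : 1 ≤ d) {κ : ℝ} (hκ1 : 1 ≤ κ) (hκ3 : 3 * κ ≤ d) (h : ¬ AsymLE (pol K o) (d - κ)) :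
    ∃ n : ℕ, (n : ℝ) ≤ (10 * d / κ) ^ (4 * κ + 2) ∧ ∃ (w : Fin n → EuclideanSpace ℝ (Fin d)) (b : Fin n → ℝ),
      ∀ u x₀ : EuclideanSpace ℝ (Fin d), u ≠ 0 → x₀ ∈ K →
        (∀ y ∈ K, ⟪u, y⟫_ℝ ≤ ⟪u, x₀⟫_ℝ) →
          ∃ i, ⟪w i, o⟫_ℝ < b i ∧ ∀ x ∈ K, ⟪u, x⟫_ℝ = ⟪u, x₀⟫_ℝ → b i < ⟪w i, x⟫_ℝ := by
  obtain ⟨n, hn, m, hm0, hm1, t, ht⟩ := cover_general (pol_convex K o) (pol_isCompact ho)
    (pol_interior hKc) hd1 hκ1 hκ3 h
  exact ⟨n, hn, separated_of_cover ho hm0.le hm1 t ht⟩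

theorem separated_two_pow {K : Set (EuclideanSpace ℝ (Fin d))} (hKc : IsCompact K) {o : EuclideanSpace ℝ (Fin d)} (ho : o ∈ interior K)
    (hd : 2 ≤ d) (h : ¬ AsymLE (pol K o) (39 / 40 * d)) :
    ∃ (w : Fin (2 ^ d - 1) → EuclideanSpace ℝ (Fin d)) (b : Fin (2 ^ d - 1) → ℝ),
      ∀ u x₀ : EuclideanSpace ℝ (Fin d), u ≠ 0 → x₀ ∈ K →
        (∀ y ∈ K, ⟪u, y⟫_ℝ ≤ ⟪u, x₀⟫_ℝ) →
          ∃ i, ⟪w i, o⟫_ℝ < b i ∧ ∀ x ∈ K, ⟪u, x⟫_ℝ = ⟪u, x₀⟫_ℝ → b i < ⟪w i, x⟫_ℝ := by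
  obtain ⟨m, hm0, hm1, t, ht⟩ := cover_two_pow (pol_convex K o) (pol_isCompact ho)
    (pol_interior hKc) hd h
  exact separated_of_cover ho hm0.le hm1 t ht

end Pool.Agent.Lib.MP_5e7226_co.MB
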